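import Pool.Agent.Lib.MP_9c4f7e_nt.CC.One

/-!
# MP_9c4f7e / CC / Big: cycles of period at least `Y`
-/

set_option autoImplicit false

open Finset

namespace Pool.Agent.Lib.MP_9c4f7e_nt.CC

theorem small_add (k : ℤ) (B : ℝ) (a b : ℕ) (w : ℤ) : small k B (a + b) w = small k B a w + small k B b ((T k)^[a] w) := by
  unfold small
  rw [sum_range_add]
  congr 1
  refine sum_congr rfl fun i _ => ?_
  rw [add_comm a i, Function.iterate_add_apply]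

/-- the last small iterate among the first `j` -/
theorem small_last {k : ℤ} {B : ℝ} {j : ℕ} {w : ℤ} (hj : 0 < j) (hw : (w : ℝ) ≤ B * k) :
    ∃ i < j, (((T k)^[i] w : ℤ) : ℝ) ≤ B * k ∧ small k B j w = small k B i w + 1 := by
  obtain ⟨I, hI⟩ : ∃ I : Finset ℕ, I = (range j).filter fun i => (((T k)^[i] w : ℤ) : ℝ) ≤ B * k := ⟨_, rfl⟩
  have h0 : 0 ∈ I := by
    rw [hI, mem_filter, mem_range]
    exact ⟨hj, hw⟩
  obtain ⟨i, hiI, hmax⟩ := exists_max_image I id ⟨0, h0⟩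
  have hi := hiI
  rw [hI, mem_filter, mem_range] at hi
  refine ⟨i, hi.1, hi.2, ?_⟩
  obtain ⟨b, rfl⟩ : ∃ b, j = i + 1 + b := ⟨j - (i + 1), by omega⟩
  rw [small_add, small_add]
  have h1 : small k B 1 ((T k)^[i] w) = 1 := by
    unfold small
    rw [sum_range_one, Function.iterate_zero_apply, if_pos hi.2]
  have h2 : small k B b ((T k)^[i + 1] w) = 0 := by
    unfold small
    apply sum_eq_zero
    intro c hc
    rw [mem_range] at hc
    rw [if_neg]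
    intro hcon
    have h3 : i + 1 + c ∈ I := by
      rw [hI, mem_filter, mem_range]
      refine ⟨by omega, ?_⟩
      rw [add_comm (i + 1) c, Function.iterate_add_apply]
      exact hcon
    have := hmax _ h3
    simp only [id_eq] at this
    omega
  rw [h1, h2]

/-- if every small element of an orbit is followed by many small elements, a positive proportion of the orbit is small -/
theorem small_dense {k : ℤ} {B : ℝ} {j : ℕ} {S : Finset ℤ} (hj : 2 * 10 ^ 6 ≤ j) (hS : ∀ w ∈ S, ∀ i, (T k)^[i] w ∈ S)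
    (hgood : ∀ w ∈ S, (w : ℝ) ≤ B * k → j < 10 ^ 6 * small k B j w) (n : ℕ) :
    ∀ w ∈ S, (w : ℝ) ≤ B * k → n ≤ 2 * 10 ^ 6 * small k B n w + j := by
  induction n using Nat.strong_induction_on with
  | _ n ih =>
    intro w hw hwB
    rcases le_or_gt n j with h | h
    · omega
    · have hg := hgood w hw hwB
      obtain ⟨i, hij, hiB, hs⟩ := small_last (j := j) (by omega) hwB
      have hi0 : 0 < i := by
        rcases Nat.eq_zero_or_pos i with h0 | h0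
        · exfalso
          rw [h0] at hs
          have : small k B 0 w = 0 := by simp [small]
          omega
        · exact h0
      have h1 := ih (n - i) (by omega) ((T k)^[i] w) (hS w hw i) hiB
      have h2 : small k B n w = small k B i w + small k B (n - i) ((T k)^[i] w) := by
        rw [← small_add, Nat.add_sub_cancel' (by omega)]
      omega

theorem good_card2 {k : ℤ} (hk : k % 2 = 1) (j : ℕ) (hj : 3 ^ j ≤ k) (hj6 : 2 * 10 ^ 6 ≤ j) {F : Finset (Finset ℤ)} (Y : ℝ)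
    (hF : ∀ S ∈ F, ∃ L : ℕ, Y ≤ L ∧ IsPrimitiveCycle k L S) (A : Finset ℤ) (hA : ∀ S ∈ F, ∀ w ∈ S, w ≤ 10 ^ 6 * k → w ∈ A)
    (hw : ∀ S ∈ F, ∃ w ∈ S, w ≤ 10 ^ 6 * k)
    (hgood : ∀ S ∈ F, ∀ w ∈ S, w ≤ 10 ^ 6 * k → j < 10 ^ 6 * small k (10 ^ 6) j w) : (F.card : ℝ) * ((Y + j) / (8 * 10 ^ 6)) ≤ A.card := by
  refine card_fam (fun S hS S' hS' w hw hw' => ?_) A _ fun S hS => ?_
  · obtain ⟨L, -, h⟩ := hF S hS
    obtain ⟨L', -, h'⟩ := hF S' hS'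
    exact cyc_eq hk h h' hw hw'
  · obtain ⟨L, hLY, h⟩ := hF S hS
    obtain ⟨w, hwS, hwk⟩ := hw S hS
    have hE := elt hk h hwS
    have hjL : j < L := by
      have h1 := hE.len hk
      have h2 : (3 : ℤ) ^ j < 3 ^ L := hj.trans_lt h1
      exact (pow_lt_pow_iff_right₀ (by norm_num : (1 : ℤ) < 3)).1 h2
    have hwr : (w : ℝ) ≤ 10 ^ 6 * k := by exact_mod_cast hwk
    have h3 : small k (10 ^ 6) L w ≤ (S ∩ A).card := by
      rw [small_eq]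
      apply card_le_card_of_injOn (fun i => (T k)^[i] w)
      · intro i hi
        rw [mem_coe, mem_filter, mem_range] at hi
        rw [mem_coe, mem_inter]
        refine ⟨hE.mem i, hA S hS _ (hE.mem i) ?_⟩
        exact_mod_cast hi.2
      · intro a ha b hb hab
        rw [mem_coe, mem_filter, mem_range] at ha hb
        exact hE.inj a ha.1 b hb.1 hab
    have h4 := small_dense (k := k) (B := 10 ^ 6) (j := j) (S := S) hj6 (fun v hv i => (elt hk h hv).mem i)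
      (fun v hv hvB => hgood S hS v hv (by exact_mod_cast hvB)) L w hwS hwr
    have h5 := hgood S hS w hwS hwk
    have h6 : small k (10 ^ 6) j w ≤ small k (10 ^ 6) L w := by
      obtain ⟨b, rfl⟩ : ∃ b, L = j + b := ⟨L - j, by omega⟩
      rw [small_add]
      exact Nat.le_add_right _ _
    have h7 : L + j ≤ 8 * 10 ^ 6 * (S ∩ A).card := by omega
    have h8 : (L : ℝ) + j ≤ 8 * 10 ^ 6 * ((S ∩ A).card : ℝ) := by exact_mod_cast h7
    rw [div_le_iff₀ (by norm_num)]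
    linarith

theorem bad_pow : ∃ C : ℝ, 0 < C ∧ ∀ k : ℤ, k % 2 = 1 → 2 ≤ k → ((bad k (Nat.log 3 k.toNat)).card : ℝ) ≤ C * (k : ℝ) ^ (39 / 40 : ℝ) := by
  refine ⟨2 * 10 ^ 6 * √(1 + 10 ^ 6) * (2 / tau), by have := tau_pos; positivity, fun k hk hk2 => ?_⟩
  obtain ⟨hj1, hj3, -, -⟩ := jlog hk hk2
  obtain ⟨j, hj⟩ : ∃ j, j = Nat.log 3 k.toNat := ⟨_, rfl⟩
  have hlt : (k : ℝ) ≤ 3 ^ (j + 1) := by
    have h1 := Nat.lt_pow_succ_log_self (b := 3) (by norm_num) k.toNat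
    rw [← hj] at h1
    have h2 : (k.toNat : ℤ) < 3 ^ (j + 1) := by exact_mod_cast h1
    rw [Int.toNat_of_nonneg (by omega)] at h2
    exact_mod_cast h2.le
  rw [← hj] at hj1 hj3 ⊢
  have hkr : (0 : ℝ) < k := by exact_mod_cast (by omega : 0 < k)
  have h2j : (2 : ℤ) ^ j ≤ k := (pow_le_pow_left₀ (by norm_num) (by norm_num) j).trans hj3
  have h3 := bad_card hk (by omega) j h2j
  have ht := tau_pos
  have h4 : (tau / 2) ^ (j + 1) ≤ (k : ℝ) ^ (-(1 / 40 : ℝ)) := by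
    have h5 : tau / 2 = (4 : ℝ) ^ (-(1 / 40 : ℝ)) := by
      unfold tau
      rw [show (4 : ℝ) = 2 ^ (2 : ℝ) by norm_num, ← Real.rpow_mul (by norm_num), div_eq_mul_inv, ← Real.rpow_neg_one,
        ← Real.rpow_add (by norm_num)]
      norm_num
    have h6 : (tau / 2) ^ (j + 1) = ((4 : ℝ) ^ (j + 1)) ^ (-(1 / 40 : ℝ)) := by
      rw [h5, ← Real.rpow_natCast, ← Real.rpow_mul (by norm_num), ← Real.rpow_natCast, ← Real.rpow_mul (by norm_num), mul_comm]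
    rw [h6]
    apply Real.rpow_le_rpow_of_nonpos hkr _ (by norm_num)
    exact hlt.trans (pow_le_pow_left₀ (by norm_num) (by norm_num) _)
  have h7 : (tau / 2) ^ j ≤ 2 / tau * (k : ℝ) ^ (-(1 / 40 : ℝ)) := by
    calc (tau / 2) ^ j = 2 / tau * (tau / 2) ^ (j + 1) := by rw [pow_succ]; field_simp
      _ ≤ _ := mul_le_mul_of_nonneg_left h4 (by positivity)
  have h8 : (k : ℝ) * (k : ℝ) ^ (-(1 / 40 : ℝ)) = (k : ℝ) ^ (39 / 40 : ℝ) := by
    rw [show (39 / 40 : ℝ) = 1 + -(1 / 40) by norm_num, Real.rpow_add hkr, Real.rpow_one]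
  calc ((bad k j).card : ℝ) ≤ 2 * 10 ^ 6 * √(1 + 10 ^ 6) * k * (tau / 2) ^ j := h3
    _ ≤ 2 * 10 ^ 6 * √(1 + 10 ^ 6) * k * (2 / tau * (k : ℝ) ^ (-(1 / 40 : ℝ))) := mul_le_mul_of_nonneg_left h7 (by positivity)
    _ = 2 * 10 ^ 6 * √(1 + 10 ^ 6) * (2 / tau) * (k * (k : ℝ) ^ (-(1 / 40 : ℝ))) := by ring
    _ = _ := by rw [h8]

theorem big : ∃ C : ℝ, 0 < C ∧ ∀ k : ℤ, k % 2 = 1 → 2 ≤ k → ∀ X Y : ℝ, 1 ≤ X → 1 ≤ Y → ∀ F : Finset (Finset ℤ),
    (∀ S ∈ F, (∃ L : ℕ, Y ≤ L ∧ IsPrimitiveCycle k L S) ∧ ∃ w ∈ S, |(w : ℝ)| ≤ X) →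
      (F.card : ℝ) ≤ C * (k / (Y + Real.log k) + (k : ℝ) ^ (39 / 40 : ℝ) + X ^ (19 / 20 : ℝ)) := by
  classical
  obtain ⟨C1, hC1, hbad⟩ := bad_pow
  obtain ⟨M, hM⟩ : ∃ M : ℕ, M = 2 * 10 ^ 6 + 1 := ⟨_, rfl⟩
  obtain ⟨C2, hC2⟩ : ∃ C2 : ℝ, C2 = 10 ^ 6 * (3 : ℝ) ^ M := ⟨_, rfl⟩
  have hC2p : 0 < C2 := by rw [hC2]; positivity
  refine ⟨10 ^ 6 * (32 * 10 ^ 6) + C1 + C2 + 6, by positivity, fun k hk hk2 X Y hX hY F hF => ?_⟩
  obtain ⟨hj1, hj3, hjlog, hlog⟩ := jlog hk hk2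
  have hbd := hbad k hk hk2
  have hkr1 : (1 : ℝ) ≤ k := by exact_mod_cast (by omega : 1 ≤ k)
  have hkr : (0 : ℝ) < k := by linarith
  have hlt : k < 3 ^ (Nat.log 3 k.toNat + 1) := by
    have h1 := Nat.lt_pow_succ_log_self (b := 3) (by norm_num) k.toNat
    have h2 : (k.toNat : ℤ) < 3 ^ (Nat.log 3 k.toNat + 1) := by exact_mod_cast h1
    rwa [Int.toNat_of_nonneg (by omega)] at h2
  obtain ⟨j, hj⟩ : ∃ j, j = Nat.log 3 k.toNat := ⟨_, rfl⟩
  rw [← hj] at hj1 hj3 hjlog hbd hlt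
  have hjr : (1 : ℝ) ≤ j := by exact_mod_cast hj1
  have hbl := bal_real hk hX
  have hcyc : ∀ S ∈ F, ∃ L : ℕ, Y ≤ L ∧ IsPrimitiveCycle k L S := fun S hS => (hF S hS).1
  have hmeet : ∀ S ∈ F, ∃ w ∈ S, w.natAbs ≤ ⌊X⌋₊ := by
    intro S hS
    obtain ⟨-, w, hw, hwX⟩ := hF S hS
    exact ⟨w, hw, natAbs_le hwX⟩
  have hdisj : ∀ S ∈ F, ∀ S' ∈ F, ∀ w, w ∈ S → w ∈ S' → S = S' := by
    intro S hS S' hS' w hw hw'
    obtain ⟨L, -, h⟩ := hcyc S hS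
    obtain ⟨L', -, h'⟩ := hcyc S' hS'
    exact cyc_eq hk h h' hw hw'
  have hIcc : ((Icc 1 (10 ^ 6 * k)).card : ℝ) = 10 ^ 6 * k := by
    rw [Int.card_Icc]
    have : ((10 ^ 6 * k + 1 - 1).toNat : ℤ) = 10 ^ 6 * k := by
      rw [Int.toNat_of_nonneg (by omega)]
      ring
    exact_mod_cast this
  obtain ⟨F2, hF2⟩ : ∃ F2, F2 = F.filter fun S => ∃ w ∈ S, w ∈ bad k j := ⟨_, rfl⟩
  obtain ⟨F3, hF3⟩ : ∃ F3, F3 = F.filter fun S => ∃ w ∈ S, w ∈ bal k ⌊X⌋₊ := ⟨_, rfl⟩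
  obtain ⟨F1, hF1⟩ : ∃ F1, F1 = F.filter fun S => (¬ ∃ w ∈ S, w ∈ bad k j) ∧ ¬ ∃ w ∈ S, w ∈ bal k ⌊X⌋₊ := ⟨_, rfl⟩
  have hcov : F ⊆ F1 ∪ (F2 ∪ F3) := by
    intro S hS
    rw [mem_union, mem_union, hF1, hF2, hF3, mem_filter, mem_filter, mem_filter]
    by_cases h1 : ∃ w ∈ S, w ∈ bad k j
    · exact Or.inr (Or.inl ⟨hS, h1⟩)
    · by_cases h2 : ∃ w ∈ S, w ∈ bal k ⌊X⌋₊
      · exact Or.inr (Or.inr ⟨hS, h2⟩)
      · exact Or.inl ⟨hS, h1, h2⟩
  have hc : (F.card : ℝ) ≤ F1.card + (F2.card + F3.card) := by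
    have h1 := (card_le_card hcov).trans ((card_union_le _ _).trans (Nat.add_le_add_left (card_union_le _ _) _))
    exact_mod_cast h1
  have h2 : (F2.card : ℝ) ≤ (bad k j).card := by
    refine card_meet (fun S hS S' hS' => hdisj S ?_ S' ?_) _ fun S hS => ?_
    · rw [hF2, mem_filter] at hS; exact hS.1
    · rw [hF2, mem_filter] at hS'; exact hS'.1
    · rw [hF2, mem_filter] at hS; exact hS.2
  have h3 : (F3.card : ℝ) ≤ (bal k ⌊X⌋₊).card := by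
    refine card_meet (fun S hS S' hS' => hdisj S ?_ S' ?_) _ fun S hS => ?_
    · rw [hF3, mem_filter] at hS; exact hS.1
    · rw [hF3, mem_filter] at hS'; exact hS'.1
    · rw [hF3, mem_filter] at hS; exact hS.2
  have hpos : ∀ S ∈ F1, (∀ w ∈ S, 0 < w) ∧ ∃ w ∈ S, w ≤ 10 ^ 6 * k := by
    intro S hS
    rw [hF1, mem_filter] at hS
    obtain ⟨L, -, h⟩ := hcyc S hS.1
    rcases cyc_sign hk hk2 h with hp | hn
    · refine ⟨hp, ?_⟩
      by_contra hcon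
      push Not at hcon
      exact hS.2.2 (far_mem hk hk2 h _ (hmeet S hS.1) (Or.inl fun w hw => ⟨hp w hw, hcon w hw⟩))
    · exact absurd (far_mem hk hk2 h _ (hmeet S hS.1) (Or.inr hn)) hS.2.2
  have hk39 : (1 : ℝ) ≤ (k : ℝ) ^ (39 / 40 : ℝ) := Real.one_le_rpow hkr1 (by norm_num)
  have hX19 : (0 : ℝ) ≤ X ^ (19 / 20 : ℝ) := by positivity
  have hq : 0 ≤ (k : ℝ) / (Y + Real.log k) := by positivity
  have h1 : (F1.card : ℝ) ≤ 10 ^ 6 * (32 * 10 ^ 6) * (k / (Y + Real.log k)) + C2 * (k : ℝ) ^ (39 / 40 : ℝ) := by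
    rcases le_or_gt (2 * 10 ^ 6) j with hj6 | hj6
    · have h4 := good_card2 hk j hj3 hj6 (F := F1) Y (fun S hS => by
        rw [hF1, mem_filter] at hS
        exact hcyc S hS.1) (Icc 1 (10 ^ 6 * k)) (fun S hS w hw hwk => by
        rw [mem_Icc]
        have := (hpos S hS).1 w hw
        omega) (fun S hS => (hpos S hS).2) (fun S hS w hw hwk => by
        have hp := (hpos S hS).1 w hw
        rw [hF1, mem_filter] at hS
        by_contra hcon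
        rw [not_lt] at hcon
        apply hS.2.1
        refine ⟨w, hw, ?_⟩
        rw [bad, mem_filter, mem_Icc]
        exact ⟨⟨by omega, hwk⟩, hcon⟩)
      rw [hIcc] at h4
      have h5 : (F1.card : ℝ) * ((Y + Real.log k) / (32 * 10 ^ 6)) ≤ 10 ^ 6 * k := by
        refine le_trans (mul_le_mul_of_nonneg_left ?_ (Nat.cast_nonneg _)) h4
        rw [div_le_div_iff₀ (by norm_num) (by norm_num)]
        nlinarith
      have h6 : (F1.card : ℝ) ≤ 10 ^ 6 * (32 * 10 ^ 6) * (k / (Y + Real.log k)) := by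
        calc (F1.card : ℝ) = F1.card * ((Y + Real.log k) / (32 * 10 ^ 6)) * ((32 * 10 ^ 6) / (Y + Real.log k)) := by field_simp
          _ ≤ 10 ^ 6 * k * ((32 * 10 ^ 6) / (Y + Real.log k)) := mul_le_mul_of_nonneg_right h5 (by positivity)
          _ = _ := by ring
      have h7 : 0 ≤ C2 * (k : ℝ) ^ (39 / 40 : ℝ) := by positivity
      linarith
    · have h4 : (F1.card : ℝ) ≤ (Icc 1 (10 ^ 6 * k)).card := by
        refine card_meet (fun S hS S' hS' => hdisj S ?_ S' ?_) _ fun S hS => ?_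
        · rw [hF1, mem_filter] at hS; exact hS.1
        · rw [hF1, mem_filter] at hS'; exact hS'.1
        · obtain ⟨hp, w, hw, hwk⟩ := hpos S hS
          refine ⟨w, hw, ?_⟩
          rw [mem_Icc]
          have := hp w hw
          omega
      rw [hIcc] at h4
      have h5 : (k : ℝ) ≤ 3 ^ M := by
        have h6 : k ≤ 3 ^ M := hlt.le.trans (pow_le_pow_right₀ (by norm_num) (by omega))
        exact_mod_cast h6
      have h7 : (10 : ℝ) ^ 6 * k ≤ C2 := by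
        rw [hC2]
        exact mul_le_mul_of_nonneg_left h5 (by norm_num)
      have h8 : C2 ≤ C2 * (k : ℝ) ^ (39 / 40 : ℝ) := le_mul_of_one_le_right hC2p.le hk39
      have h9 : 0 ≤ 10 ^ 6 * (32 * 10 ^ 6) * ((k : ℝ) / (Y + Real.log k)) := by positivity
      linarith
  have e1 : 0 ≤ C1 * (k : ℝ) ^ (39 / 40 : ℝ) := by positivity
  have e2 : 0 ≤ C2 * (k : ℝ) ^ (39 / 40 : ℝ) := by positivity
  obtain ⟨a, ha⟩ : ∃ a : ℝ, a = (k : ℝ) / (Y + Real.log k) := ⟨_, rfl⟩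
  obtain ⟨b, hb⟩ : ∃ b : ℝ, b = (k : ℝ) ^ (39 / 40 : ℝ) := ⟨_, rfl⟩
  obtain ⟨d, hd⟩ : ∃ d : ℝ, d = X ^ (19 / 20 : ℝ) := ⟨_, rfl⟩
  rw [← ha] at h1 hq ⊢
  rw [← hb] at h1 hbd hk39 ⊢
  rw [← hd] at hbl hX19 ⊢
  have hfin : (F.card : ℝ) ≤ 10 ^ 6 * (32 * 10 ^ 6) * a + C2 * b + (C1 * b + 6 * d) := by linarith
  have g1 : 0 ≤ (C1 + C2 + 6) * a := by positivity
  have g2 : 0 ≤ (10 ^ 6 * (32 * 10 ^ 6) + 6) * b := by positivity
  have g3 : 0 ≤ (10 ^ 6 * (32 * 10 ^ 6) + C1 + C2) * d := by positivity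
  calc (F.card : ℝ) ≤ 10 ^ 6 * (32 * 10 ^ 6) * a + C2 * b + (C1 * b + 6 * d) := hfin
    _ ≤ 10 ^ 6 * (32 * 10 ^ 6) * a + C2 * b + (C1 * b + 6 * d) + ((C1 + C2 + 6) * a + (10 ^ 6 * (32 * 10 ^ 6) + 6) * b +
        (10 ^ 6 * (32 * 10 ^ 6) + C1 + C2) * d) := by linarith
    _ = _ := by ring

end Pool.Agent.Lib.MP_9c4f7e_nt.CC
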