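import Pool.Agent.Lib.MP_9c4f7e_nt.CC.Par

/-!
# MP_9c4f7e / CC / Cnt: few parity words with many ones; growth along an orbit
-/

set_option autoImplicit false

open Finset

namespace Pool.Agent.Lib.MP_9c4f7e_nt.CC

/-- `2^(19/20)` -/
noncomputable def tau : ℝ := (2 : ℝ) ^ (19 / 20 : ℝ)

theorem tau_pos : 0 < tau := by unfold tau; positivity

theorem tau_pow : tau ^ 20 = 2 ^ 19 := by
  unfold tau
  rw [← Real.rpow_natCast, ← Real.rpow_mul (by norm_num)]
  norm_num

theorem tau_key : (1 + √3) * (1 + 1 / 10 ^ 6) ≤ √2 * tau := by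
  have h3 : √3 ≤ 1.7320509 := by
    rw [Real.sqrt_le_left (by norm_num)]
    norm_num
  have h1 : ((1 + √3) * (1 + 1 / 10 ^ 6)) ^ 20 ≤ (√2 * tau) ^ 20 := by
    rw [mul_pow √2 tau, tau_pow]
    have h2 : √2 ^ 20 = 2 ^ 10 := by
      have : √2 ^ 20 = (√2 ^ 2) ^ 10 := by ring
      rw [this, Real.sq_sqrt (by norm_num)]
    rw [h2]
    have h0 : 0 ≤ √3 := Real.sqrt_nonneg 3
    calc ((1 + √3) * (1 + 1 / 10 ^ 6)) ^ 20 ≤ ((1 + 1.7320509) * (1 + 1 / 10 ^ 6)) ^ 20 := by gcongr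
      _ ≤ 2 ^ 10 * 2 ^ 19 := by norm_num
  exact le_of_pow_le_pow_left₀ (by norm_num) (by have := tau_pos; positivity) h1

/-- a set of integers in an interval, all of whose parity words have many ones, is small -/
theorem card_le {k : ℤ} (hk : k % 2 = 1) (n q : ℕ) (A : Finset ℤ) (a : ℤ) (K : ℝ) (hK : 0 ≤ K)
    (hA : ∀ x ∈ A, a ≤ x ∧ x < a + q * 2 ^ n)
    (hb : ∀ x ∈ A, (2 : ℝ) ^ n ≤ K * ((1 + 1 / 10 ^ 6) ^ n) ^ 2 * 3 ^ ones k n x) : (A.card : ℝ) ≤ q * √K * tau ^ n := by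
  have h2pos : (0 : ℝ) < √2 ^ n := by positivity
  have h1 : ∀ x ∈ A, √2 ^ n ≤ √K * (1 + 1 / 10 ^ 6) ^ n * √3 ^ ones k n x := by
    intro x hx
    have h2 := Real.sqrt_le_sqrt (hb x hx)
    have e1 : √((2 : ℝ) ^ n) = √2 ^ n := by
      rw [Real.sqrt_eq_iff_mul_self_eq (by positivity) (by positivity), ← mul_pow, Real.mul_self_sqrt (by norm_num)]
    have e2 : √((3 : ℝ) ^ ones k n x) = √3 ^ ones k n x := by
      rw [Real.sqrt_eq_iff_mul_self_eq (by positivity) (by positivity), ← mul_pow, Real.mul_self_sqrt (by norm_num)]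
    rw [e1, Real.sqrt_mul (by positivity), Real.sqrt_mul hK, Real.sqrt_sq (by positivity), e2] at h2
    exact h2
  have h3 : (A.card : ℝ) * √2 ^ n ≤ ∑ x ∈ A, √K * (1 + 1 / 10 ^ 6) ^ n * √3 ^ ones k n x := by
    rw [← nsmul_eq_mul, ← sum_const]
    exact sum_le_sum h1
  rw [← mul_sum] at h3
  have h4 := sum_interval (n := n) (fun x => √3 ^ ones k n x) (fun x z => by simp only [ones_add hk]) (fun x => by positivity) A a q hA
  rw [sum_pow hk] at h4
  have h5 : (A.card : ℝ) * √2 ^ n ≤ q * √K * ((1 + √3) * (1 + 1 / 10 ^ 6)) ^ n := by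
    calc (A.card : ℝ) * √2 ^ n ≤ √K * (1 + 1 / 10 ^ 6) ^ n * (q * (1 + √3) ^ n) :=
          h3.trans (mul_le_mul_of_nonneg_left h4 (by positivity))
      _ = _ := by rw [mul_pow]; ring
  have h6 : ((1 + √3) * (1 + 1 / 10 ^ 6)) ^ n ≤ (√2 * tau) ^ n := pow_le_pow_left₀ (by positivity) tau_key n
  have h7 : (A.card : ℝ) * √2 ^ n ≤ q * √K * tau ^ n * √2 ^ n := by
    calc (A.card : ℝ) * √2 ^ n ≤ q * √K * (√2 * tau) ^ n := h5.trans (mul_le_mul_of_nonneg_left h6 (by positivity))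
      _ = _ := by rw [mul_pow]; ring
  exact le_of_mul_le_mul_right h7 h2pos

theorem two_T {k : ℤ} (hk : k % 2 = 1) (x : ℤ) : 2 * T k x = if x % 2 = 1 then 3 * x + k else x := by
  unfold T
  split_ifs with h <;> omega

theorem T_pos {k : ℤ} (hk0 : 0 < k) {x : ℤ} (hx : 0 < x) : 0 < T k x := by
  unfold T
  split_ifs with h <;> omega

theorem iter_pos {k : ℤ} (hk0 : 0 < k) {x : ℤ} (hx : 0 < x) (n : ℕ) : 0 < (T k)^[n] x := by
  induction n with
  | zero => exact hx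
  | succ n ih =>
    rw [Function.iterate_succ_apply']
    exact T_pos hk0 ih

/-- the number of the iterates `x, ..., T^(n-1) x` which are at most `B k` -/
noncomputable def small (k : ℤ) (B : ℝ) (n : ℕ) (x : ℤ) : ℕ := ∑ i ∈ range n, if (((T k)^[i] x : ℤ) : ℝ) ≤ B * k then 1 else 0

theorem growth {k : ℤ} (hk : k % 2 = 1) (hk0 : 0 < k) {B : ℝ} (hB : 0 < B) {x : ℤ} (hx : 0 < x) (n : ℕ) :
    ((k : ℝ) + (((T k)^[n] x : ℤ) : ℝ)) * 2 ^ n ≤ ((k : ℝ) + x) * 3 ^ ones k n x * (1 + 1 / B) ^ n * 2 ^ small k B n x := by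
  induction n with
  | zero => simp [ones_zero, small]
  | succ n ih =>
    obtain ⟨y, hy⟩ : ∃ y, y = (T k)^[n] x := ⟨_, rfl⟩
    have hy0 : 0 < y := hy ▸ iter_pos hk0 hx n
    have hs : small k B (n + 1) x = small k B n x + if (y : ℝ) ≤ B * k then 1 else 0 := by
      unfold small
      rw [sum_range_succ, hy]
    rw [Function.iterate_succ_apply', ones_succ', hs, ← hy]
    rw [← hy] at ih
    have hkr : (0 : ℝ) < k := by exact_mod_cast hk0
    have hyr : (0 : ℝ) < y := by exact_mod_cast hy0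
    have hB1 : 0 < 1 / B := by positivity
    have h2 : (2 : ℝ) * ((T k y : ℤ) : ℝ) = if y % 2 = 1 then 3 * (y : ℝ) + k else y := by
      have h := two_T hk y
      split_ifs at h ⊢ with h1
      · exact_mod_cast h
      · exact_mod_cast h
    have key : 2 * ((k : ℝ) + ((T k y : ℤ) : ℝ)) ≤ ((k : ℝ) + y) * 3 ^ (if y % 2 = 1 then 1 else 0) * (1 + 1 / B) *
        2 ^ (if (y : ℝ) ≤ B * k then 1 else 0) := by
      rw [mul_add, h2]
      have hone : (1 : ℝ) ≤ 2 ^ (if (y : ℝ) ≤ B * k then 1 else 0) := one_le_pow₀ (by norm_num)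
      by_cases h1 : y % 2 = 1
      · simp only [h1, if_true, pow_one]
        have h3 : 2 * (k : ℝ) + (3 * y + k) = ((k : ℝ) + y) * 3 := by ring
        rw [h3]
        have h4 : ((k : ℝ) + y) * 3 ≤ ((k : ℝ) + y) * 3 * (1 + 1 / B) := le_mul_of_one_le_right (by positivity) (by linarith)
        exact h4.trans (le_mul_of_one_le_right (by positivity) hone)
      · simp only [h1, if_false, pow_zero, mul_one]
        by_cases h5 : (y : ℝ) ≤ B * k
        · simp only [h5, if_true, pow_one]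
          have h6 : ((k : ℝ) + y) ≤ ((k : ℝ) + y) * (1 + 1 / B) := le_mul_of_one_le_right (by positivity) (by linarith)
          nlinarith
        · simp only [h5, if_false, pow_zero, mul_one]
          rw [not_le] at h5
          have h6 : (k : ℝ) ≤ ((k : ℝ) + y) * (1 / B) := by
            rw [mul_one_div, le_div_iff₀ hB]
            nlinarith
          nlinarith
    calc ((k : ℝ) + ((T k y : ℤ) : ℝ)) * 2 ^ (n + 1) = 2 * ((k : ℝ) + ((T k y : ℤ) : ℝ)) * 2 ^ n := by ring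
      _ ≤ (((k : ℝ) + y) * 3 ^ (if y % 2 = 1 then 1 else 0) * (1 + 1 / B) * 2 ^ (if (y : ℝ) ≤ B * k then 1 else 0)) * 2 ^ n := by
          exact mul_le_mul_of_nonneg_right key (by positivity)
      _ = (((k : ℝ) + y) * 2 ^ n) * (3 ^ (if y % 2 = 1 then 1 else 0) * (1 + 1 / B) * 2 ^ (if (y : ℝ) ≤ B * k then 1 else 0)) := by ring
      _ ≤ (((k : ℝ) + x) * 3 ^ ones k n x * (1 + 1 / B) ^ n * 2 ^ small k B n x) *
          (3 ^ (if y % 2 = 1 then 1 else 0) * (1 + 1 / B) * 2 ^ (if (y : ℝ) ≤ B * k then 1 else 0)) := by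
          exact mul_le_mul_of_nonneg_right ih (by positivity)
      _ = _ := by rw [pow_add, pow_add, pow_add]; ring

theorem lower {k : ℤ} (hk : k % 2 = 1) (hk0 : 0 < k) (x : ℤ) (n : ℕ) :
    3 ^ ones k n x * x ≤ 2 ^ n * (T k)^[n] x := by
  induction n with
  | zero => simp [ones_zero]
  | succ n ih =>
    obtain ⟨y, hy⟩ : ∃ y, y = (T k)^[n] x := ⟨_, rfl⟩
    rw [Function.iterate_succ_apply', ones_succ', ← hy]
    rw [← hy] at ih
    have h := two_T hk y
    have e : (2 : ℤ) ^ (n + 1) * T k y = 2 ^ n * (2 * T k y) := by ring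
    rw [e, h]
    have h2 : (0 : ℤ) < 2 ^ n := by positivity
    by_cases h1 : y % 2 = 1
    · simp only [h1, if_true]
      rw [pow_succ]
      nlinarith
    · simp only [h1, if_false, add_zero]
      exact ih

theorem dvd_iter {k : ℤ} (hk : k % 2 = 1) (x : ℤ) (n : ℕ) : k ∣ 2 ^ n * (T k)^[n] x - 3 ^ ones k n x * x := by
  induction n with
  | zero => simp [ones_zero]
  | succ n ih =>
    obtain ⟨y, hy⟩ : ∃ y, y = (T k)^[n] x := ⟨_, rfl⟩
    rw [Function.iterate_succ_apply', ones_succ', ← hy]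
    rw [← hy] at ih
    have h := two_T hk y
    have e : (2 : ℤ) ^ (n + 1) * T k y = 2 ^ n * (2 * T k y) := by ring
    rw [e, h]
    by_cases h1 : y % 2 = 1
    · simp only [h1, if_true]
      have e2 : 2 ^ n * (3 * y + k) - 3 ^ (ones k n x + 1) * x = 3 * (2 ^ n * y - 3 ^ ones k n x * x) + k * 2 ^ n := by ring
      rw [e2]
      exact dvd_add (Dvd.dvd.mul_left ih _) (dvd_mul_right _ _)
    · simp only [h1, if_false, add_zero]
      exact ih

end Pool.Agent.Lib.MP_9c4f7e_nt.CC
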