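import Pool.Agent.Lib.MP_9c4f7e_nt.CC.Cnt

/-!
# MP_9c4f7e / CC / Cyc: primitive cycles
-/

set_option autoImplicit false

open Finset

namespace Pool.Agent.Lib.MP_9c4f7e_nt.CC

/-- `C` is (the set of elements of) a primitive integer cycle of `T_k` of period `L`. -/
def IsPrimitiveCycle (k : ℤ) (L : ℕ) (C : Finset ℤ) : Prop :=
  ∃ x : ℕ → ℤ, 0 < L ∧ (∀ i < L, ∀ j < L, x i = x j → i = j) ∧
    (∀ i, i + 1 < L → T k (x i) = x (i + 1)) ∧ T k (x (L - 1)) = x 0 ∧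
    C = (Finset.range L).image x ∧ Int.gcd (x 0) k = 1

theorem cyc_start {k : ℤ} {L : ℕ} {S : Finset ℤ} (h : IsPrimitiveCycle k L S) :
    ∃ z : ℤ, 0 < L ∧ Int.gcd z k = 1 ∧ (T k)^[L] z = z ∧ (∀ i < L, ∀ j < L, (T k)^[i] z = (T k)^[j] z → i = j) ∧
      ∀ w, w ∈ S ↔ ∃ i < L, w = (T k)^[i] z := by
  obtain ⟨x, hL, hinj, hstep, hlast, rfl, hg⟩ := h
  have hx : ∀ i < L, x i = (T k)^[i] (x 0) := by
    intro i
    induction i with
    | zero => intro _; rfl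
    | succ i ih =>
      intro hi
      rw [Function.iterate_succ_apply', ← ih (by omega), hstep i hi]
  refine ⟨x 0, hL, hg, ?_, ?_, ?_⟩
  · obtain ⟨M, rfl⟩ : ∃ M, L = M + 1 := ⟨L - 1, by omega⟩
    rw [Function.iterate_succ_apply', ← hx M (by omega)]
    exact hlast
  · intro i hi j hj hij
    rw [← hx i hi, ← hx j hj] at hij
    exact hinj i hi j hj hij
  · intro w
    rw [mem_image]
    constructor
    · rintro ⟨i, hi, rfl⟩
      rw [mem_range] at hi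
      exact ⟨i, hi, hx i hi⟩
    · rintro ⟨i, hi, rfl⟩
      exact ⟨i, mem_range.2 hi, hx i hi⟩

/-- all facts about an element of a primitive cycle -/
structure Elt (k : ℤ) (L : ℕ) (S : Finset ℤ) (w : ℤ) : Prop where
  pos : 0 < L
  gcd : Int.gcd w k = 1
  per : (T k)^[L] w = w
  inj : ∀ i < L, ∀ j < L, (T k)^[i] w = (T k)^[j] w → i = j
  mem : ∀ i, (T k)^[i] w ∈ S
  all : ∀ v ∈ S, ∃ i, v = (T k)^[i] w

theorem elt {k : ℤ} (hk : k % 2 = 1) {L : ℕ} {S : Finset ℤ} (h : IsPrimitiveCycle k L S) {w : ℤ} (hw : w ∈ S) : Elt k L S w := by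
  obtain ⟨z, hL, hg, hper, hinj, hS⟩ := cyc_start h
  have hmem : ∀ i, (T k)^[i] z ∈ S := by
    intro i
    rw [hS]
    refine ⟨i % L, Nat.mod_lt _ hL, ?_⟩
    have h1 : Function.IsPeriodicPt (T k) L z := hper
    exact (h1.iterate_mod_apply i).symm
  obtain ⟨i, hi, rfl⟩ := (hS w).1 hw
  have hback : (T k)^[L - i] ((T k)^[i] z) = z := by
    rw [← Function.iterate_add_apply, Nat.sub_add_cancel hi.le]
    exact hper
  have hcomm : ∀ (a b : ℕ) (z : ℤ), (T k)^[a] ((T k)^[b] z) = (T k)^[b] ((T k)^[a] z) := by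
    intro a b z
    rw [← Function.iterate_add_apply, ← Function.iterate_add_apply, add_comm]
  refine ⟨hL, ?_, ?_, ?_, ?_, ?_⟩
  · have h1 := dvd_iter hk ((T k)^[i] z) (L - i)
    rw [hback] at h1
    obtain ⟨d, hd⟩ : ∃ d, d = Int.gcd ((T k)^[i] z) k := ⟨_, rfl⟩
    rw [← hd]
    have hd1 : (d : ℤ) ∣ (T k)^[i] z := hd ▸ Int.gcd_dvd_left _ _
    have hd2 : (d : ℤ) ∣ k := hd ▸ Int.gcd_dvd_right _ _
    have hd3 : (d : ℤ) ∣ 2 ^ (L - i) * z := by
      have e : 2 ^ (L - i) * z = (2 ^ (L - i) * z - 3 ^ ones k (L - i) ((T k)^[i] z) * (T k)^[i] z) +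
          3 ^ ones k (L - i) ((T k)^[i] z) * (T k)^[i] z := by ring
      rw [e]
      exact dvd_add (hd2.trans h1) (Dvd.dvd.mul_left hd1 _)
    have hodd : IsCoprime (d : ℤ) (2 ^ (L - i)) := by
      apply IsCoprime.pow_right
      have h2 : IsCoprime k 2 := Int.isCoprime_two_right.2 (Int.odd_iff.2 hk)
      exact h2.of_isCoprime_of_dvd_left hd2
    have hd4 : (d : ℤ) ∣ z := hodd.dvd_of_dvd_mul_left hd3
    have hd5 : (d : ℤ) ∣ (Int.gcd z k : ℤ) := Int.dvd_coe_gcd hd4 hd2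
    rw [hg] at hd5
    have := Int.natCast_dvd_natCast.1 hd5
    exact Nat.dvd_one.1 this
  · rw [hcomm, hper]
  · intro a ha b hb hab
    have h1 : (T k)^[L - i] ((T k)^[a] ((T k)^[i] z)) = (T k)^[L - i] ((T k)^[b] ((T k)^[i] z)) := by rw [hab]
    rw [hcomm (L - i) a, hcomm (L - i) b, hback] at h1
    exact hinj a ha b hb h1
  · intro a
    rw [← Function.iterate_add_apply]
    exact hmem _
  · intro v hv
    obtain ⟨j, hj, rfl⟩ := (hS v).1 hv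
    refine ⟨j + (L - i), ?_⟩
    rw [Function.iterate_add_apply, hback]

theorem cyc_nonempty {k : ℤ} {L : ℕ} {S : Finset ℤ} (h : IsPrimitiveCycle k L S) : ∃ z, z ∈ S := by
  obtain ⟨z, hL, -, -, -, hS⟩ := cyc_start h
  exact ⟨z, (hS z).2 ⟨0, hL, rfl⟩⟩

theorem Elt.dvd {k : ℤ} (hk : k % 2 = 1) {L : ℕ} {S : Finset ℤ} {w : ℤ} (h : Elt k L S w) : k ∣ 2 ^ L - 3 ^ ones k L w := by
  have h1 := dvd_iter hk w L
  rw [h.per] at h1
  have e : 2 ^ L * w - 3 ^ ones k L w * w = (2 ^ L - 3 ^ ones k L w) * w := by ring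
  rw [e] at h1
  have h2 : IsCoprime k w := by
    rw [Int.isCoprime_iff_gcd_eq_one, Int.gcd_comm]
    exact h.gcd
  exact h2.dvd_of_dvd_mul_right h1

theorem Elt.ne_zero {k : ℤ} (hk2 : 2 ≤ k) {L : ℕ} {S : Finset ℤ} {w : ℤ} (h : Elt k L S w) : w ≠ 0 := by
  rintro rfl
  have h1 := h.gcd
  rw [Int.gcd_zero_left] at h1
  omega

/-- the period is at least `log_3 k` -/
theorem Elt.len {k : ℤ} (hk : k % 2 = 1) {L : ℕ} {S : Finset ℤ} {w : ℤ} (h : Elt k L S w) : k < 3 ^ L := by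
  have h1 := h.dvd hk
  have hL := h.pos
  have hne : (2 : ℤ) ^ L - 3 ^ ones k L w ≠ 0 := by
    intro h0
    have h2 : (2 : ℤ) ^ L = 3 ^ ones k L w := by linarith
    have h3 : Even ((2 : ℤ) ^ L) := (even_two).pow_of_ne_zero hL.ne'
    have h4 : Odd ((3 : ℤ) ^ ones k L w) := Odd.pow (by decide)
    rw [h2] at h3
    exact (Int.not_even_iff_odd.2 h4) h3
  have h2 : |k| ≤ |(2 : ℤ) ^ L - 3 ^ ones k L w| := Int.le_of_dvd (abs_pos.2 hne) ((abs_dvd_abs _ _).2 h1)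
  have h3 : (3 : ℤ) ^ ones k L w ≤ 3 ^ L := pow_le_pow_right₀ (by norm_num) (ones_le k w L)
  have h4 : (2 : ℤ) ^ L < 3 ^ L := pow_lt_pow_left₀ (by norm_num) (by norm_num) hL.ne'
  have h5 : (0 : ℤ) < 3 ^ ones k L w := by positivity
  have h6 : (0 : ℤ) < 2 ^ L := by positivity
  have h7 : |(2 : ℤ) ^ L - 3 ^ ones k L w| < 3 ^ L := by
    rw [abs_lt]
    constructor <;> linarith
  exact (le_abs_self k).trans_lt (h2.trans_lt h7)

theorem cyc_sign {k : ℤ} (hk : k % 2 = 1) (hk2 : 2 ≤ k) {L : ℕ} {S : Finset ℤ} (h : IsPrimitiveCycle k L S) :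
    (∀ w ∈ S, 0 < w) ∨ ∀ w ∈ S, w < 0 := by
  obtain ⟨z, hz⟩ := cyc_nonempty h
  rcases lt_or_ge 0 z with h0 | h0
  · refine Or.inl fun w hw => ?_
    obtain ⟨i, rfl⟩ := (elt hk h hz).all w hw
    exact iter_pos (by omega) h0 i
  · refine Or.inr fun w hw => ?_
    by_contra hn
    have hw0 : 0 < w := lt_of_le_of_ne (not_lt.1 hn) (Ne.symm ((elt hk h hw).ne_zero hk2))
    obtain ⟨i, hi⟩ := (elt hk h hw).all z hz
    have := iter_pos (k := k) (by omega) hw0 i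
    rw [← hi] at this
    omega

theorem cyc_eq {k : ℤ} (hk : k % 2 = 1) {L L' : ℕ} {S S' : Finset ℤ} (h : IsPrimitiveCycle k L S) (h' : IsPrimitiveCycle k L' S')
    {w : ℤ} (hw : w ∈ S) (hw' : w ∈ S') : S = S' := by
  ext v
  constructor
  · intro hv
    obtain ⟨i, rfl⟩ := (elt hk h hw).all v hv
    exact (elt hk h' hw').mem i
  · intro hv
    obtain ⟨i, rfl⟩ := (elt hk h' hw').all v hv
    exact (elt hk h hw).mem i

/-- disjoint sets with at least `c` elements in `A` -/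
theorem card_fam {F : Finset (Finset ℤ)} (hF : ∀ S ∈ F, ∀ S' ∈ F, ∀ w, w ∈ S → w ∈ S' → S = S') (A : Finset ℤ) (c : ℝ)
    (hc : ∀ S ∈ F, c ≤ ((S ∩ A).card : ℝ)) : (F.card : ℝ) * c ≤ A.card := by
  have h1 : (F.biUnion fun S => S ∩ A).card = ∑ S ∈ F, (S ∩ A).card := by
    apply card_biUnion
    intro S hS S' hS' hne
    show Disjoint (S ∩ A) (S' ∩ A)
    rw [Finset.disjoint_left]
    intro w hw hw'
    rw [mem_inter] at hw hw'
    exact hne (hF S hS S' hS' w hw.1 hw'.1)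
  have h2 : (F.biUnion fun S => S ∩ A).card ≤ A.card := by
    apply card_le_card
    intro w hw
    obtain ⟨S, _, hwS⟩ := mem_biUnion.1 hw
    exact (mem_inter.1 hwS).2
  calc (F.card : ℝ) * c = ∑ S ∈ F, c := by rw [sum_const, nsmul_eq_mul]
    _ ≤ ∑ S ∈ F, ((S ∩ A).card : ℝ) := sum_le_sum hc
    _ = ((F.biUnion fun S => S ∩ A).card : ℝ) := by rw [h1]; push_cast; rfl
    _ ≤ A.card := by exact_mod_cast h2

theorem card_meet {F : Finset (Finset ℤ)} (hF : ∀ S ∈ F, ∀ S' ∈ F, ∀ w, w ∈ S → w ∈ S' → S = S') (A : Finset ℤ)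
    (hc : ∀ S ∈ F, ∃ w ∈ S, w ∈ A) : (F.card : ℝ) ≤ A.card := by
  have h := card_fam hF A 1 fun S hS => by
    obtain ⟨w, hw, hwA⟩ := hc S hS
    have : 0 < (S ∩ A).card := card_pos.2 ⟨w, mem_inter.2 ⟨hw, hwA⟩⟩
    exact_mod_cast this
  rwa [mul_one] at h

end Pool.Agent.Lib.MP_9c4f7e_nt.CC
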