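import Pool.Agent.Lib.MP_9c4f7e_nt.CC.Big

/-!
# MP_9c4f7e / CC / Exc: a thin set of primes
-/

set_option autoImplicit false

open Finset

namespace Pool.Agent.Lib.MP_9c4f7e_nt.CC

/-- the primes `p` which divide some `2^L - 3^m` with `m ≤ L < p^(1/4)`, `L ≥ 1` -/
def Exc : Set ℕ := {p | p.Prime ∧ ∃ L m : ℕ, 1 ≤ L ∧ m ≤ L ∧ L ^ 4 < p ∧ (p : ℤ) ∣ 2 ^ L - 3 ^ m}

theorem card_pf {n L : ℕ} (hn : n ≠ 0) (h : n ≤ 2 ^ (2 * L)) : n.primeFactors.card ≤ 2 * L := by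
  have h1 : 2 ^ n.primeFactors.card ≤ ∏ p ∈ n.primeFactors, p :=
    Finset.pow_card_le_prod _ _ _ fun p hp => (Nat.prime_of_mem_primeFactors hp).two_le
  have h2 : ∏ p ∈ n.primeFactors, p ≤ n := Nat.le_of_dvd (Nat.pos_of_ne_zero hn) (Nat.prod_primeFactors_dvd n)
  exact (Nat.pow_le_pow_iff_right (by norm_num)).1 (h1.trans (h2.trans h))

theorem ne_pow {L m : ℕ} (hL : 1 ≤ L) : (2 : ℤ) ^ L - 3 ^ m ≠ 0 := by
  intro h0
  have h2 : (2 : ℤ) ^ L = 3 ^ m := by linarith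
  have h3 : Even ((2 : ℤ) ^ L) := (even_two).pow_of_ne_zero (by omega)
  have h4 : Odd ((3 : ℤ) ^ m) := Odd.pow (by decide)
  rw [h2] at h3
  exact (Int.not_even_iff_odd.2 h4) h3

open Classical in
theorem exc_card (N : ℕ) : (((range (N + 1)).filter (· ∈ Exc)).card : ℝ) ≤ 4 * (N : ℝ) ^ (3 / 4 : ℝ) := by
  rcases Nat.eq_zero_or_pos N with rfl | hN
  · have h0 : (range (0 + 1)).filter (· ∈ Exc) = ∅ := by
      apply filter_eq_empty_iff.2
      intro p hp hE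
      rw [mem_range] at hp
      exact hE.1.ne_zero (by omega)
    rw [h0]
    simp only [card_empty, Nat.cast_zero]
    positivity
  · obtain ⟨Y, hY⟩ : ∃ Y : ℕ, Y = ⌊(N : ℝ) ^ (1 / 4 : ℝ)⌋₊ := ⟨_, rfl⟩
    have hNr : (1 : ℝ) ≤ N := by exact_mod_cast hN
    have hY1 : 1 ≤ Y := by
      rw [hY]
      apply Nat.le_floor
      simpa using Real.one_le_rpow hNr (by norm_num : (0 : ℝ) ≤ 1 / 4)
    have hsub : (range (N + 1)).filter (· ∈ Exc) ⊆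
        (Icc 1 Y).biUnion fun L => (range (L + 1)).biUnion fun m => ((2 : ℤ) ^ L - 3 ^ m).natAbs.primeFactors := by
      intro p hp
      rw [mem_filter, mem_range] at hp
      obtain ⟨hpN, hpp, L, m, hL, hm, hLp, hdvd⟩ := hp
      rw [mem_biUnion]
      refine ⟨L, ?_, ?_⟩
      · rw [mem_Icc]
        refine ⟨hL, ?_⟩
        rw [hY]
        apply Nat.le_floor
        have h1 : ((L : ℝ)) ^ 4 ≤ N := by
          have : L ^ 4 ≤ N := by omega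
          exact_mod_cast this
        calc (L : ℝ) = ((L : ℝ) ^ 4) ^ (1 / 4 : ℝ) := by
              rw [← Real.rpow_natCast, ← Real.rpow_mul (Nat.cast_nonneg _)]
              norm_num
          _ ≤ (N : ℝ) ^ (1 / 4 : ℝ) := Real.rpow_le_rpow (by positivity) h1 (by norm_num)
      · rw [mem_biUnion]
        refine ⟨m, mem_range.2 (by omega), ?_⟩
        rw [Nat.mem_primeFactors]
        refine ⟨hpp, ?_, Int.natAbs_ne_zero.2 (ne_pow hL)⟩
        exact Int.natCast_dvd.1 hdvd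
    have h1 : ∀ L ∈ Icc 1 Y, ((range (L + 1)).biUnion fun m => ((2 : ℤ) ^ L - 3 ^ m).natAbs.primeFactors).card ≤ (Y + 1) * (2 * Y) := by
      intro L hL
      rw [mem_Icc] at hL
      refine card_biUnion_le.trans ?_
      have h2 : ∀ m ∈ range (L + 1), ((2 : ℤ) ^ L - 3 ^ m).natAbs.primeFactors.card ≤ 2 * Y := by
        intro m hm
        rw [mem_range] at hm
        refine (card_pf (L := L) (Int.natAbs_ne_zero.2 (ne_pow hL.1)) ?_).trans (by omega)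
        have h3 : (3 : ℤ) ^ m ≤ 3 ^ L := pow_le_pow_right₀ (by norm_num) (by omega)
        have h4 : (3 : ℤ) ^ L ≤ 2 ^ (2 * L) := by
          rw [pow_mul]
          exact pow_le_pow_left₀ (by norm_num) (by norm_num) L
        have h5 : (2 : ℤ) ^ L ≤ 3 ^ L := pow_le_pow_left₀ (by norm_num) (by norm_num) L
        have h6 : (0 : ℤ) < 3 ^ m := by positivity
        have h7 : (0 : ℤ) < 2 ^ L := by positivity
        have h8 : (((2 : ℤ) ^ L - 3 ^ m).natAbs : ℤ) ≤ 2 ^ (2 * L) := by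
          rw [Int.natCast_natAbs, abs_le]
          constructor <;> linarith
        exact_mod_cast h8
      calc ∑ m ∈ range (L + 1), ((2 : ℤ) ^ L - 3 ^ m).natAbs.primeFactors.card ≤ ∑ m ∈ range (L + 1), 2 * Y := sum_le_sum h2
        _ = (L + 1) * (2 * Y) := by rw [sum_const, card_range, smul_eq_mul]
        _ ≤ (Y + 1) * (2 * Y) := Nat.mul_le_mul_right _ (by omega)
    have h2 : ((range (N + 1)).filter (· ∈ Exc)).card ≤ 4 * Y ^ 3 := by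
      refine (card_le_card hsub).trans (card_biUnion_le.trans ?_)
      calc ∑ L ∈ Icc 1 Y, ((range (L + 1)).biUnion fun m => ((2 : ℤ) ^ L - 3 ^ m).natAbs.primeFactors).card
          ≤ ∑ L ∈ Icc 1 Y, (Y + 1) * (2 * Y) := sum_le_sum h1
        _ = Y * ((Y + 1) * (2 * Y)) := by rw [sum_const, Nat.card_Icc, smul_eq_mul, Nat.add_sub_cancel]
        _ ≤ Y * ((2 * Y) * (2 * Y)) := by
            apply Nat.mul_le_mul_left
            apply Nat.mul_le_mul_right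
            omega
        _ = 4 * Y ^ 3 := by ring
    have h3 : (Y : ℝ) ≤ (N : ℝ) ^ (1 / 4 : ℝ) := by
      rw [hY]
      exact Nat.floor_le (by positivity)
    have h4 : (Y : ℝ) ^ 3 ≤ (N : ℝ) ^ (3 / 4 : ℝ) := by
      calc (Y : ℝ) ^ 3 ≤ ((N : ℝ) ^ (1 / 4 : ℝ)) ^ 3 := pow_le_pow_left₀ (Nat.cast_nonneg _) h3 3
        _ = (N : ℝ) ^ (3 / 4 : ℝ) := by
            rw [← Real.rpow_natCast, ← Real.rpow_mul (Nat.cast_nonneg _)]
            norm_num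
    have h5 : (((range (N + 1)).filter (· ∈ Exc)).card : ℝ) ≤ 4 * (Y : ℝ) ^ 3 := by exact_mod_cast h2
    linarith

theorem exc_period {k : ℤ} (hk : k % 2 = 1) {p : ℕ} (hp : p.Prime) (hpk : (p : ℤ) ∣ k) (hE : p ∉ Exc) {L : ℕ} {S : Finset ℤ}
    (h : IsPrimitiveCycle k L S) : (p : ℝ) ^ (1 / 4 : ℝ) ≤ L := by
  obtain ⟨z, hz⟩ := cyc_nonempty h
  have hel := elt hk h hz
  have h1 := hpk.trans (hel.dvd hk)
  have h2 : ¬ L ^ 4 < p := fun hlt => hE ⟨hp, L, _, hel.pos, ones_le k z L, hlt, h1⟩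
  rw [not_lt] at h2
  have h3 : (p : ℝ) ≤ (L : ℝ) ^ 4 := by exact_mod_cast h2
  calc (p : ℝ) ^ (1 / 4 : ℝ) ≤ ((L : ℝ) ^ 4) ^ (1 / 4 : ℝ) := Real.rpow_le_rpow (Nat.cast_nonneg _) h3 (by norm_num)
    _ = L := by
        rw [← Real.rpow_natCast, ← Real.rpow_mul (Nat.cast_nonneg _)]
        norm_num

theorem four : ∃ C : ℝ, 0 < C ∧ ∀ k : ℤ, k % 2 = 1 → 2 ≤ k → ∀ p : ℕ, p.Prime → (p : ℤ) ∣ k → p ∉ Exc → ∀ X : ℝ, 1 ≤ X →
    ∀ F : Finset (Finset ℤ), (∀ S ∈ F, (∃ L : ℕ, IsPrimitiveCycle k L S) ∧ ∃ w ∈ S, |(w : ℝ)| ≤ X) →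
      (F.card : ℝ) ≤ C * (k / (p : ℝ) ^ (1 / 4 : ℝ) + (k : ℝ) ^ (39 / 40 : ℝ) + X ^ (19 / 20 : ℝ)) := by
  obtain ⟨C, hC, h⟩ := big
  refine ⟨C, hC, fun k hk hk2 p hp hpk hE X hX F hF => ?_⟩
  have hp1 : (1 : ℝ) ≤ p := by exact_mod_cast hp.one_lt.le
  have hY : (1 : ℝ) ≤ (p : ℝ) ^ (1 / 4 : ℝ) := Real.one_le_rpow hp1 (by norm_num)
  have h1 := h k hk hk2 X ((p : ℝ) ^ (1 / 4 : ℝ)) hX hY F (fun S hS => by
    obtain ⟨⟨L, hL⟩, h2⟩ := hF S hS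
    exact ⟨⟨L, exc_period hk hp hpk hE hL, hL⟩, h2⟩)
  refine h1.trans ?_
  obtain ⟨-, -, -, hlog⟩ := jlog hk hk2
  have hkr : (0 : ℝ) < k := by exact_mod_cast (by omega : 0 < k)
  have h3 : (k : ℝ) / ((p : ℝ) ^ (1 / 4 : ℝ) + Real.log k) ≤ k / (p : ℝ) ^ (1 / 4 : ℝ) :=
    div_le_div_of_nonneg_left hkr.le (by linarith) (by linarith)
  have := mul_le_mul_of_nonneg_left h3 hC.le
  nlinarith

end Pool.Agent.Lib.MP_9c4f7e_nt.CC
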