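import Pool.Agent.Lib.MP_9c4f7e_nt.CC.One

/-!
# MP_9c4f7e / CC / Thr: cycles of period at most `log_2 k + h`
-/

set_option autoImplicit false

open Finset

namespace Pool.Agent.Lib.MP_9c4f7e_nt.CC

theorem cb_sq (r : ℕ) : r.centralBinom ^ 2 * (2 * r + 1) ≤ 16 ^ r := by
  induction r with
  | zero => simp
  | succ r ih =>
    have h := Nat.succ_mul_centralBinom_succ r
    have h1 : (r + 1) ^ 2 * ((r + 1).centralBinom ^ 2 * (2 * (r + 1) + 1)) ≤ (r + 1) ^ 2 * 16 ^ (r + 1) := by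
      calc (r + 1) ^ 2 * ((r + 1).centralBinom ^ 2 * (2 * (r + 1) + 1))
          = ((r + 1) * (r + 1).centralBinom) ^ 2 * (2 * r + 3) := by ring
        _ = (2 * (2 * r + 1) * r.centralBinom) ^ 2 * (2 * r + 3) := by rw [h]
        _ = 4 * ((2 * r + 1) * (2 * r + 3)) * (r.centralBinom ^ 2 * (2 * r + 1)) := by ring
        _ ≤ 4 * ((2 * r + 1) * (2 * r + 3)) * 16 ^ r := Nat.mul_le_mul_left _ ih
        _ ≤ 4 * (4 * (r + 1) ^ 2) * 16 ^ r := by
            apply Nat.mul_le_mul_right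
            apply Nat.mul_le_mul_left
            nlinarith
        _ = _ := by ring
    exact Nat.le_of_mul_le_mul_left h1 (by positivity)

theorem choose_sq (n m : ℕ) : (n.choose m) ^ 2 * (n + 1) ≤ 4 ^ n := by
  have h0 : n.choose m ≤ n.choose (n / 2) := Nat.choose_le_middle m n
  refine le_trans (Nat.mul_le_mul_right _ (Nat.pow_le_pow_left h0 2)) ?_
  obtain ⟨r, hr⟩ : ∃ r, r = n / 2 := ⟨_, rfl⟩
  rcases Nat.even_or_odd n with he | ho
  · obtain ⟨s, hs⟩ := he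
    have h1 : n = 2 * r := by omega
    rw [← hr, h1]
    have h2 := cb_sq r
    rw [Nat.centralBinom] at h2
    calc (2 * r).choose r ^ 2 * (2 * r + 1) ≤ 16 ^ r := h2
      _ = 4 ^ (2 * r) := by rw [pow_mul]; norm_num
  · obtain ⟨s, hs⟩ := ho
    have h1 : n = 2 * r + 1 := by omega
    rw [← hr, h1]
    have h2 := cb_sq (r + 1)
    have h3 : (r + 1).centralBinom = 2 * (2 * r + 1).choose r := by
      rw [Nat.centralBinom, show 2 * (r + 1) = 2 * r + 1 + 1 by ring, Nat.choose_succ_succ, Nat.choose_symm_half]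
      ring
    rw [h3] at h2
    have h4 : 4 * ((2 * r + 1).choose r ^ 2 * (2 * r + 3)) ≤ 4 * 4 ^ (2 * r + 1) := by
      calc 4 * ((2 * r + 1).choose r ^ 2 * (2 * r + 3)) = (2 * (2 * r + 1).choose r) ^ 2 * (2 * (r + 1) + 1) := by ring
        _ ≤ 16 ^ (r + 1) := h2
        _ = 4 * 4 ^ (2 * r + 1) := by
            rw [pow_succ 4 (2 * r), pow_mul, pow_succ]
            norm_num
            ring
    have h5 := Nat.le_of_mul_le_mul_left h4 (by norm_num)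
    refine le_trans (Nat.mul_le_mul_left _ ?_) h5
    omega

theorem choose_real (n m : ℕ) : (n.choose m : ℝ) ≤ 2 ^ n / √(n + 1) := by
  have h1 : ((n.choose m : ℝ)) ^ 2 * (n + 1) ≤ 4 ^ n := by exact_mod_cast choose_sq n m
  have h2 : (0 : ℝ) < √(n + 1) := by positivity
  rw [le_div_iff₀ h2]
  apply le_of_sq_le_sq _ (by positivity)
  rw [mul_pow, Real.sq_sqrt (by positivity), ← pow_mul, mul_comm n 2, pow_mul]
  norm_num
  exact h1

theorem card_ones {k : ℤ} (hk : k % 2 = 1) (n q m : ℕ) (A : Finset ℤ)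
    (hA : ∀ x ∈ A, 1 ≤ x ∧ x < 1 + q * 2 ^ n ∧ ones k n x = m) : (A.card : ℝ) ≤ q * (n.choose m : ℝ) := by
  have h1 := sum_interval (n := n) (fun x => if ones k n x = m then (1 : ℝ) else 0) (fun x z => by simp only [ones_add hk])
    (fun x => by split_ifs <;> norm_num) A 1 q (fun x hx => ⟨(hA x hx).1, (hA x hx).2.1⟩)
  rw [sum_ind hk] at h1
  have h2 : ∑ x ∈ A, (if ones k n x = m then (1 : ℝ) else 0) = A.card := by
    rw [sum_congr rfl fun x hx => if_pos (hA x hx).2.2]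
    simp
  rw [← h2]
  exact h1

/-- the elements of `[1, 10^6 k]` with `3^(ones) = 2^n - q k` -/
noncomputable def lay (k : ℤ) (n : ℕ) (q : ℕ) : Finset ℤ :=
  (Icc 1 (10 ^ 6 * k)).filter fun w => (3 : ℤ) ^ ones k n w = 2 ^ n - q * k

theorem lay_card {k : ℤ} (hk : k % 2 = 1) (hk2 : 2 ≤ k) (n q : ℕ) (hn : k < 2 ^ n) :
    ((lay k n q).card : ℝ) ≤ (10 ^ 6 + 1) * (2 ^ n / √(n + 1)) := by
  rcases (lay k n q).eq_empty_or_nonempty with h0 | ⟨w0, hw0⟩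
  · rw [h0]
    simp only [card_empty, Nat.cast_zero]
    positivity
  · rw [lay, mem_filter] at hw0
    have h1 := card_ones hk n (10 ^ 6 + 1) (ones k n w0) (lay k n q) (fun x hx => by
      rw [lay, mem_filter, mem_Icc] at hx
      refine ⟨hx.1.1, ?_, ?_⟩
      · push_cast
        nlinarith [hx.1.2]
      · have h2 : (3 : ℤ) ^ ones k n x = 3 ^ ones k n w0 := by rw [hx.2, hw0.2]
        exact Int.pow_right_injective (by norm_num) h2)
    refine h1.trans ?_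
    have e6 : ((10 ^ 6 + 1 : ℕ) : ℝ) = 10 ^ 6 + 1 := by norm_num
    have h5 : (0 : ℝ) ≤ 10 ^ 6 + 1 := by norm_num
    rw [e6]
    exact mul_le_mul_of_nonneg_left (choose_real _ _) h5

theorem three (h : ℝ) : ∃ C : ℝ, 0 < C ∧ ∀ k : ℤ, k % 2 = 1 → 2 ≤ k → ∀ F : Finset (Finset ℤ),
    (∀ S ∈ F, ∃ L : ℕ, (L : ℝ) ≤ Real.logb 2 k + h ∧ IsPrimitiveCycle k L S) →
      (F.card : ℝ) ≤ C * (k / (Real.log k) ^ (3 / 2 : ℝ)) := by
  classical
  obtain ⟨H, hH⟩ := exists_nat_ge (max h 1)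
  have hHh : h ≤ H := (le_max_left _ _).trans hH
  have hH1 : (1 : ℝ) ≤ H := (le_max_right _ _).trans hH
  obtain ⟨c, C, hc, hC, hr⟩ := reach
  obtain ⟨C1, hC1, hdec⟩ := decay
  obtain ⟨D, hD⟩ : ∃ D : ℝ, D = 2 / c + H := ⟨_, rfl⟩
  have hD1 : 1 ≤ D := by rw [hD]; have : 0 < 2 / c := by positivity
                         linarith
  obtain ⟨B, hB⟩ : ∃ B : ℝ, B = C * D ^ C := ⟨_, rfl⟩
  have hDC : 1 ≤ D ^ C := Real.one_le_rpow hD1 (by linarith)
  have hB1 : 1 ≤ B := by rw [hB]; nlinarith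
  obtain ⟨Q, hQ⟩ : ∃ Q : ℝ, Q = ((H + 1 : ℕ) : ℝ) * ((2 ^ H + 1 : ℕ) : ℝ) * ((10 ^ 6 + 1) * 2 ^ (H + 1)) := ⟨_, rfl⟩
  have hQ0 : 0 < Q := by rw [hQ]; positivity
  refine ⟨Q * (4 * 10 ^ 6) + 2 * 10 ^ 6 * √(1 + 10 ^ 6) * (16 * C1) * 2 + 6 * (B ^ (19 / 20 : ℝ) * (800 / 14) ^ 2), by positivity,
    fun k hk hk2 F hF => ?_⟩
  have hk3 : (3 : ℝ) ≤ k := by exact_mod_cast (by omega : 3 ≤ k)
  have hkr : (0 : ℝ) < k := by linarith
  obtain ⟨hj1, hj3, hjlog, hlog⟩ := jlog hk hk2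
  obtain ⟨j, hj⟩ : ∃ j, j = Nat.log 3 k.toNat := ⟨_, rfl⟩
  rw [← hj] at hj1 hj3 hjlog
  have hjr : (1 : ℝ) ≤ j := by exact_mod_cast hj1
  obtain ⟨ℓ, hℓ⟩ : ∃ ℓ : ℝ, ℓ = Real.log k := ⟨_, rfl⟩
  have hℓ2 : 1 / 2 ≤ ℓ := by
    rw [hℓ]
    have h1 : Real.log 2 ≤ Real.log k := Real.log_le_log (by norm_num) (by linarith)
    have h2 := Real.log_two_gt_d9
    linarith
  have hℓ0 : 0 < ℓ := by linarith
  have e32 : ℓ ^ (3 / 2 : ℝ) = ℓ * √ℓ := by
    rw [Real.sqrt_eq_rpow, show (3 / 2 : ℝ) = 1 + 1 / 2 by norm_num, Real.rpow_add hℓ0, Real.rpow_one]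
  have hsq : 0 < √ℓ := Real.sqrt_pos.2 hℓ0
  -- the base-2 logarithm
  obtain ⟨n, hn⟩ : ∃ n : ℕ, k = n := ⟨k.toNat, (Int.toNat_of_nonneg (by omega)).symm⟩
  obtain ⟨l0, hl0⟩ : ∃ l0, l0 = Nat.log 2 n := ⟨_, rfl⟩
  have hn0 : n ≠ 0 := by omega
  have hl1 : (2 : ℤ) ^ l0 ≤ k := by
    rw [hn, hl0]
    exact_mod_cast Nat.pow_log_le_self 2 hn0
  have hl2 : k < 2 ^ (l0 + 1) := by
    rw [hn, hl0]
    exact_mod_cast Nat.lt_pow_succ_log_self (by norm_num) n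
  have hX := bal_real hk (X := B * (k : ℝ) ^ (41 / 40 : ℝ)) (by
    have := Real.one_le_rpow (x := (k : ℝ)) (z := 41 / 40) (by linarith) (by norm_num)
    nlinarith)
  have hX2 := reach_pow (k := k) (X := B * (k : ℝ) ^ (41 / 40 : ℝ)) (B := B) (by linarith) (by linarith) (by positivity) le_rfl
  -- the set A
  obtain ⟨A, hA⟩ : ∃ A : Finset ℤ, A = (range (H + 1)).biUnion fun t => (range (2 ^ H + 1)).biUnion fun q => lay k (l0 + 1 + t) q := ⟨_, rfl⟩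
  have hAc : (A.card : ℝ) ≤ Q * (k / √ℓ) := by
    have h1 : ∀ t ∈ range (H + 1), ∀ q : ℕ, ((lay k (l0 + 1 + t) q).card : ℝ) ≤ (10 ^ 6 + 1) * 2 ^ (H + 1) * (k / √ℓ) := by
      intro t ht q
      rw [mem_range] at ht
      have h2 : k < 2 ^ (l0 + 1 + t) := hl2.trans_le (pow_le_pow_right₀ (by norm_num) (by omega))
      refine (lay_card hk hk2 _ q h2).trans ?_
      have h3 : (2 : ℝ) ^ (l0 + 1 + t) ≤ 2 ^ (H + 1) * k := by
        have h4 : (2 : ℝ) ^ l0 ≤ k := by exact_mod_cast hl1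
        calc (2 : ℝ) ^ (l0 + 1 + t) = 2 ^ (t + 1) * 2 ^ l0 := by ring
          _ ≤ 2 ^ (H + 1) * k := by
              apply mul_le_mul (pow_le_pow_right₀ (by norm_num) (by omega)) h4 (by positivity) (by positivity)
      have h5 : ℓ ≤ ((l0 + 1 + t : ℕ) : ℝ) + 1 := by
        have h6 : (k : ℝ) ≤ 2 ^ (l0 + 1) := by exact_mod_cast hl2.le
        have h7 := Real.log_le_log hkr h6
        rw [Real.log_pow, ← hℓ] at h7
        have h8 : Real.log 2 ≤ 1 := by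
          have := Real.log_two_lt_d9
          linarith
        have h9 : ((l0 + 1 : ℕ) : ℝ) * Real.log 2 ≤ ((l0 + 1 : ℕ) : ℝ) * 1 := mul_le_mul_of_nonneg_left h8 (by positivity)
        have h10 : (0 : ℝ) ≤ t := Nat.cast_nonneg t
        push_cast at h7 h9 ⊢
        linarith
      have h11 : √ℓ ≤ √(((l0 + 1 + t : ℕ) : ℝ) + 1) := Real.sqrt_le_sqrt h5
      calc (10 ^ 6 + 1 : ℝ) * (2 ^ (l0 + 1 + t) / √(((l0 + 1 + t : ℕ) : ℝ) + 1)) ≤ (10 ^ 6 + 1) * (2 ^ (H + 1) * k / √ℓ) := by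
            gcongr
        _ = _ := by ring
    have h2 : (A.card : ℝ) ≤ ∑ t ∈ range (H + 1), ∑ q ∈ range (2 ^ H + 1), (10 ^ 6 + 1) * 2 ^ (H + 1) * (k / √ℓ) := by
      rw [hA]
      have h3 : (((range (H + 1)).biUnion fun t => (range (2 ^ H + 1)).biUnion fun q => lay k (l0 + 1 + t) q).card : ℝ) ≤
          ∑ t ∈ range (H + 1), (((range (2 ^ H + 1)).biUnion fun q => lay k (l0 + 1 + t) q).card : ℝ) := by
        exact_mod_cast card_biUnion_le
      refine h3.trans (sum_le_sum fun t ht => ?_)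
      have h4 : (((range (2 ^ H + 1)).biUnion fun q => lay k (l0 + 1 + t) q).card : ℝ) ≤
          ∑ q ∈ range (2 ^ H + 1), ((lay k (l0 + 1 + t) q).card : ℝ) := by
        exact_mod_cast card_biUnion_le
      exact h4.trans (sum_le_sum fun q _ => h1 t ht q)
    rw [sum_const, sum_const, card_range, card_range, nsmul_eq_mul, nsmul_eq_mul] at h2
    refine h2.trans (le_of_eq ?_)
    rw [hQ]
    ring
  have hlogb : Real.logb 2 k = ℓ / Real.log 2 := by rw [hℓ]; rfl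
  have hlog2 : 0 < Real.log 2 := Real.log_pos (by norm_num)
  have hsp := split hk hk2 j hj1 hj3 ⌊B * (k : ℝ) ^ (41 / 40 : ℝ)⌋₊ F (fun S hS => by
    obtain ⟨L, hL, hcy⟩ := hF S hS
    refine ⟨⟨L, hcy⟩, ?_⟩
    obtain ⟨w, hw, hwb⟩ := hr k hk hk2 D hD1 L S hcy (by
      refine hL.trans ?_
      have h1 : (1 : ℝ) ≤ (k : ℝ) ^ c := Real.one_le_rpow (by linarith) hc.le
      have h2 : ℓ ≤ (k : ℝ) ^ c / c := by
        rw [hℓ]
        exact Real.log_le_rpow_div hkr.le hc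
      have h3 : ℓ / Real.log 2 ≤ 2 * ℓ := by
        rw [div_le_iff₀ hlog2]
        have := Real.log_two_gt_d9
        nlinarith
      rw [hlogb, hD]
      have h4 : h ≤ H * (k : ℝ) ^ c := by nlinarith
      have h5 : 2 * ℓ ≤ 2 / c * (k : ℝ) ^ c := by
        calc 2 * ℓ ≤ 2 * ((k : ℝ) ^ c / c) := by linarith
          _ = _ := by ring
      linarith)
    refine ⟨w, hw, natAbs_le ?_⟩
    rw [hB]
    exact hwb) A (fun S hS hpos w hw hwk => by
    obtain ⟨L, hL, hcy⟩ := hF S hS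
    have hE := elt hk hcy hw
    have hw0 := hpos w hw
    have hl := lower hk (by omega) w L
    rw [hE.per] at hl
    have h11 : (3 : ℤ) ^ ones k L w ≤ 2 ^ L := le_of_mul_le_mul_right hl hw0
    have hne : (2 : ℤ) ^ L ≠ 3 ^ ones k L w := by
      intro h2
      have h3 : Even ((2 : ℤ) ^ L) := (even_two).pow_of_ne_zero hE.pos.ne'
      have h4 : Odd ((3 : ℤ) ^ ones k L w) := Odd.pow (by decide)
      rw [h2] at h3
      exact (Int.not_even_iff_odd.2 h4) h3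
    obtain ⟨q, hq⟩ := hE.dvd hk
    have hq0 : 0 < q := by
      by_contra hcon
      rw [not_lt] at hcon
      have : k * q ≤ 0 := mul_nonpos_of_nonneg_of_nonpos (by omega) hcon
      have h12 : (3 : ℤ) ^ ones k L w < 2 ^ L := lt_of_le_of_ne h11 (Ne.symm hne)
      omega
    have h3p : (0 : ℤ) < 3 ^ ones k L w := by positivity
    have hkq : k ≤ k * q := by nlinarith
    have hkL : k < 2 ^ L := by omega
    have hL0 : l0 < L := by
      have h13 : (2 : ℤ) ^ l0 < 2 ^ L := hl1.trans_lt hkL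
      exact (pow_lt_pow_iff_right₀ (by norm_num : (1 : ℤ) < 2)).1 h13
    -- `2^L ≤ 2^H k`
    have h14 : (2 : ℝ) ^ L ≤ 2 ^ H * k := by
      have h15 : (L : ℝ) * Real.log 2 ≤ H * Real.log 2 + ℓ := by
        rw [hlogb] at hL
        have h16 : (L : ℝ) * Real.log 2 ≤ (ℓ / Real.log 2 + h) * Real.log 2 := mul_le_mul_of_nonneg_right hL hlog2.le
        have h17 : (ℓ / Real.log 2 + h) * Real.log 2 = ℓ + h * Real.log 2 := by field_simp
        have h18 : h * Real.log 2 ≤ H * Real.log 2 := mul_le_mul_of_nonneg_right hHh hlog2.le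
        linarith
      have h19 : Real.log ((2 : ℝ) ^ L) ≤ Real.log (2 ^ H * k) := by
        rw [Real.log_mul (by positivity) hkr.ne', Real.log_pow, Real.log_pow, ← hℓ]
        exact h15
      exact (Real.log_le_log_iff (by positivity) (by positivity)).1 h19
    have h14' : (2 : ℤ) ^ L ≤ 2 ^ H * k := by exact_mod_cast h14
    rw [hA, mem_biUnion]
    refine ⟨L - (l0 + 1), ?_, ?_⟩
    · rw [mem_range]
      have h20 : (2 : ℤ) ^ L < 2 ^ (H + (l0 + 1)) := by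
        calc (2 : ℤ) ^ L ≤ 2 ^ H * k := h14'
          _ < 2 ^ H * 2 ^ (l0 + 1) := mul_lt_mul_of_pos_left hl2 (by positivity)
          _ = _ := (pow_add _ _ _).symm
      have h21 := (pow_lt_pow_iff_right₀ (by norm_num : (1 : ℤ) < 2)).1 h20
      omega
    · rw [mem_biUnion]
      refine ⟨q.toNat, ?_, ?_⟩
      · rw [mem_range]
        have h22 : k * q < 2 ^ H * k := by linarith
        have h23 : q < 2 ^ H := by
          have : k * q < k * 2 ^ H := by linarith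
          exact lt_of_mul_lt_mul_left this (by omega)
        have h24 : (q.toNat : ℤ) < 2 ^ H + 1 := by
          rw [Int.toNat_of_nonneg hq0.le]
          omega
        exact_mod_cast h24
      · rw [show l0 + 1 + (L - (l0 + 1)) = L by omega, lay, mem_filter, mem_Icc, Int.toNat_of_nonneg hq0.le]
        refine ⟨⟨by omega, hwk⟩, ?_⟩
        linarith)
  -- the sum
  have h2j : (2 : ℤ) ^ j ≤ k := (pow_le_pow_left₀ (by norm_num) (by norm_num) j).trans hj3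
  have h3 := bad_card hk (by omega) j h2j
  rw [← hℓ] at hjlog hX2 ⊢
  have hinv : 1 / (j : ℝ) ≤ 4 / ℓ := by
    rw [div_le_div_iff₀ (by linarith) hℓ0]
    linarith
  have t1 : (A.card : ℝ) * (10 ^ 6 / j) ≤ Q * (4 * 10 ^ 6) * (k / ℓ ^ (3 / 2 : ℝ)) := by
    calc (A.card : ℝ) * (10 ^ 6 / j) = A.card * (10 ^ 6 * (1 / j)) := by ring
      _ ≤ (Q * (k / √ℓ)) * (10 ^ 6 * (4 / ℓ)) := by gcongr
      _ = _ := by rw [e32]; field_simp
  have t2 : 2 * 10 ^ 6 * √(1 + 10 ^ 6) * k * (tau / 2) ^ j ≤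
      2 * 10 ^ 6 * √(1 + 10 ^ 6) * (16 * C1) * 2 * (k / ℓ ^ (3 / 2 : ℝ)) := by
    have h7 := hdec j
    have h8 : (tau / 2) ^ j ≤ 16 * C1 / ℓ ^ 2 := by
      calc (tau / 2) ^ j = (j : ℝ) ^ 2 * (tau / 2) ^ j * (1 / j) ^ 2 := by field_simp
        _ ≤ C1 * (4 / ℓ) ^ 2 := by
            gcongr
        _ = _ := by ring
    have h9 : 1 / ℓ ^ 2 ≤ 2 / ℓ ^ (3 / 2 : ℝ) := by
      rw [e32, div_le_div_iff₀ (by positivity) (by positivity)]
      have h10 : √ℓ ≤ 2 * ℓ := by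
        rw [Real.sqrt_le_left (by positivity)]
        nlinarith
      nlinarith
    calc 2 * 10 ^ 6 * √(1 + 10 ^ 6) * k * (tau / 2) ^ j ≤ 2 * 10 ^ 6 * √(1 + 10 ^ 6) * k * (16 * C1 / ℓ ^ 2) :=
          mul_le_mul_of_nonneg_left h8 (by positivity)
      _ = 2 * 10 ^ 6 * √(1 + 10 ^ 6) * (16 * C1) * k * (1 / ℓ ^ 2) := by ring
      _ ≤ 2 * 10 ^ 6 * √(1 + 10 ^ 6) * (16 * C1) * k * (2 / ℓ ^ (3 / 2 : ℝ)) := mul_le_mul_of_nonneg_left h9 (by positivity)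
      _ = _ := by ring
  have t3 : 6 * (B * (k : ℝ) ^ (41 / 40 : ℝ)) ^ (19 / 20 : ℝ) ≤ 6 * (B ^ (19 / 20 : ℝ) * (800 / 14) ^ 2) * (k / ℓ ^ (3 / 2 : ℝ)) := by
    calc 6 * (B * (k : ℝ) ^ (41 / 40 : ℝ)) ^ (19 / 20 : ℝ) ≤ 6 * (B ^ (19 / 20 : ℝ) * ((800 / 14) ^ 2 * (k / ℓ ^ (3 / 2 : ℝ)))) := by
          linarith
      _ = _ := by ring
  calc (F.card : ℝ) ≤ A.card * (10 ^ 6 / j) + (bad k j).card + (bal k ⌊B * (k : ℝ) ^ (41 / 40 : ℝ)⌋₊).card := hsp
    _ ≤ Q * (4 * 10 ^ 6) * (k / ℓ ^ (3 / 2 : ℝ)) + 2 * 10 ^ 6 * √(1 + 10 ^ 6) * (16 * C1) * 2 * (k / ℓ ^ (3 / 2 : ℝ)) +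
        6 * (B ^ (19 / 20 : ℝ) * (800 / 14) ^ 2) * (k / ℓ ^ (3 / 2 : ℝ)) := by linarith
    _ = _ := by ring

end Pool.Agent.Lib.MP_9c4f7e_nt.CC
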