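import Pool.Agent.Lib.MP_9c4f7e_nt.CC.Exc
import Pool.Agent.Lib.MP_9c4f7e_nt.CC.Thr

/-!
# MP_9c4f7e / CC / Fin: cycles of period at most `k^c`
-/

set_option autoImplicit false

open Finset

namespace Pool.Agent.Lib.MP_9c4f7e_nt.CC

theorem mid : ∃ c C : ℝ, 0 < c ∧ 0 < C ∧ ∀ k : ℤ, k % 2 = 1 → 2 ≤ k → ∀ Y : ℝ, 1 ≤ Y → ∀ F : Finset (Finset ℤ),
    (∀ S ∈ F, ∃ L : ℕ, Y ≤ L ∧ (L : ℝ) ≤ (k : ℝ) ^ c ∧ IsPrimitiveCycle k L S) →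
      (F.card : ℝ) ≤ C * (k / (Y + Real.log k) + (k : ℝ) ^ (39 / 40 : ℝ)) := by
  obtain ⟨c, C, hc, hC, hr⟩ := reach
  obtain ⟨C1, hC1, h1⟩ := big
  refine ⟨c, C1 * (1 + C ^ (19 / 20 : ℝ)), hc, by positivity, fun k hk hk2 Y hY F hF => ?_⟩
  have hk3 : (3 : ℝ) ≤ k := by exact_mod_cast (by omega : 3 ≤ k)
  have hkp : (1 : ℝ) ≤ (k : ℝ) ^ (41 / 40 : ℝ) := Real.one_le_rpow (by linarith) (by norm_num)
  have h2 := h1 k hk hk2 (C * (k : ℝ) ^ (41 / 40 : ℝ)) Y (by nlinarith) hY F (fun S hS => by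
    obtain ⟨L, hY, hL, hcy⟩ := hF S hS
    refine ⟨⟨L, hY, hcy⟩, ?_⟩
    obtain ⟨w, hw, hwb⟩ := hr k hk hk2 1 le_rfl L S hcy (by rwa [one_mul])
    refine ⟨w, hw, ?_⟩
    rwa [Real.one_rpow, mul_one] at hwb)
  have h3 : (C * (k : ℝ) ^ (41 / 40 : ℝ)) ^ (19 / 20 : ℝ) ≤ C ^ (19 / 20 : ℝ) * (k : ℝ) ^ (39 / 40 : ℝ) := by
    rw [Real.mul_rpow (by linarith) (by positivity), ← Real.rpow_mul (by linarith)]
    apply mul_le_mul_of_nonneg_left _ (by positivity)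
    exact Real.rpow_le_rpow_of_exponent_le (by linarith) (by norm_num)
  have hlog : 0 < Real.log k := Real.log_pos (by linarith)
  have h4 : 0 ≤ (k : ℝ) / (Y + Real.log k) := by positivity
  have h5 : 0 ≤ C ^ (19 / 20 : ℝ) := by positivity
  have h6 : 0 ≤ (k : ℝ) ^ (39 / 40 : ℝ) := by positivity
  refine h2.trans ?_
  rw [mul_assoc]
  apply mul_le_mul_of_nonneg_left _ hC1.le
  nlinarith [mul_nonneg h5 h4]

end Pool.Agent.Lib.MP_9c4f7e_nt.CC
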