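import Pool.Agent.Lib.MP_9c4f7e_nt.CC.Per

/-!
# MP_9c4f7e / CC / One: the number of primitive cycles, order `k / log k`
-/

set_option autoImplicit false

open Finset

namespace Pool.Agent.Lib.MP_9c4f7e_nt.CC

theorem tau_lt : tau / 2 < 1 := by
  have h : tau ^ 20 < 2 ^ 20 := by rw [tau_pow]; norm_num
  have h2 : tau < 2 := lt_of_pow_lt_pow_left₀ 20 (by norm_num) h
  linarith

/-- the exceptional elements are few -/
theorem decay : ∃ C : ℝ, 0 < C ∧ ∀ j : ℕ, (j : ℝ) ^ 2 * (tau / 2) ^ j ≤ C := by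
  have h0 : 0 ≤ tau / 2 := by have := tau_pos; positivity
  have h := tendsto_pow_const_mul_const_pow_of_lt_one 2 h0 tau_lt
  obtain ⟨C, hC⟩ := h.bddAbove_range
  refine ⟨max C 1, by positivity, fun j => ?_⟩
  exact (hC (Set.mem_range_self j)).trans (le_max_left _ _)

theorem jlog {k : ℤ} (hk : k % 2 = 1) (hk2 : 2 ≤ k) :
    1 ≤ Nat.log 3 k.toNat ∧ (3 : ℤ) ^ Nat.log 3 k.toNat ≤ k ∧ Real.log k ≤ 4 * (Nat.log 3 k.toNat : ℝ) ∧ 0 < Real.log k := by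
  have hk3 : 3 ≤ k := by omega
  obtain ⟨n, rfl⟩ : ∃ n : ℕ, k = n := ⟨k.toNat, (Int.toNat_of_nonneg (by omega)).symm⟩
  have hn3 : 3 ≤ n := by exact_mod_cast hk3
  rw [Int.toNat_natCast]
  have h1 : 1 ≤ Nat.log 3 n := Nat.log_pos (by norm_num) hn3
  have h3 : (3 : ℝ) ≤ n := by exact_mod_cast hn3
  refine ⟨h1, by exact_mod_cast Nat.pow_log_le_self 3 (by omega), ?_, ?_⟩
  · have h4 : (n : ℝ) ≤ 3 ^ (Nat.log 3 n + 1) := by exact_mod_cast (Nat.lt_pow_succ_log_self (by norm_num) n).le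
    have h5 := Real.log_le_log (by linarith) h4
    rw [Real.log_pow] at h5
    have h6 : Real.log 3 ≤ 2 := by
      have := Real.log_le_sub_one_of_pos (show (0 : ℝ) < 3 by norm_num)
      linarith
    have h7 : (1 : ℝ) ≤ (Nat.log 3 n : ℝ) := by exact_mod_cast h1
    push_cast at h5 ⊢
    nlinarith
  · push_cast
    exact Real.log_pos (by linarith)

theorem tau_log (N : ℕ) (hN : 1 ≤ N) : tau ^ Nat.log 2 N ≤ (N : ℝ) ^ (19 / 20 : ℝ) := by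
  have h1 : tau ^ Nat.log 2 N = ((2 : ℝ) ^ Nat.log 2 N) ^ (19 / 20 : ℝ) := by
    unfold tau
    rw [← Real.rpow_natCast, ← Real.rpow_mul (by norm_num), mul_comm, Real.rpow_mul (by norm_num), Real.rpow_natCast]
  rw [h1]
  apply Real.rpow_le_rpow (by positivity) _ (by norm_num)
  exact_mod_cast Nat.pow_log_le_self 2 (by omega)

theorem bal_real {k : ℤ} (hk : k % 2 = 1) {X : ℝ} (hX : 1 ≤ X) : ((bal k ⌊X⌋₊).card : ℝ) ≤ 6 * X ^ (19 / 20 : ℝ) := by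
  have h1 := bal_card hk ⌊X⌋₊
  have hN : 1 ≤ ⌊X⌋₊ := Nat.le_floor (by simpa using hX)
  have h2 := tau_log ⌊X⌋₊ hN
  have h3 : ((⌊X⌋₊ : ℕ) : ℝ) ^ (19 / 20 : ℝ) ≤ X ^ (19 / 20 : ℝ) :=
    Real.rpow_le_rpow (by positivity) (Nat.floor_le (by linarith)) (by norm_num)
  linarith

theorem natAbs_le {w : ℤ} {X : ℝ} (hw : |(w : ℝ)| ≤ X) : w.natAbs ≤ ⌊X⌋₊ := by
  apply Nat.le_floor
  rw [Nat.cast_natAbs]
  push_cast
  exact hw

theorem one : ∃ C : ℝ, 0 < C ∧ ∀ k : ℤ, k % 2 = 1 → 2 ≤ k → ∀ X : ℝ, 1 ≤ X → ∀ F : Finset (Finset ℤ),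
    (∀ S ∈ F, (∃ L, IsPrimitiveCycle k L S) ∧ ∃ w ∈ S, |(w : ℝ)| ≤ X) →
      (F.card : ℝ) ≤ C * (k / Real.log k + X ^ (19 / 20 : ℝ)) := by
  obtain ⟨C1, hC1, hdec⟩ := decay
  refine ⟨4 * (10 ^ 12 + 2 * 10 ^ 6 * √(1 + 10 ^ 6) * C1) + 6, by positivity, fun k hk hk2 X hX F hF => ?_⟩
  obtain ⟨hj1, hj3, hjlog, hlog⟩ := jlog hk hk2
  obtain ⟨j, hj⟩ : ∃ j, j = Nat.log 3 k.toNat := ⟨_, rfl⟩
  rw [← hj] at hj1 hj3 hjlog
  have hkr : (0 : ℝ) < k := by exact_mod_cast (by omega : 0 < k)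
  have hjr : (1 : ℝ) ≤ j := by exact_mod_cast hj1
  have hF' : ∀ S ∈ F, (∃ L, IsPrimitiveCycle k L S) ∧ ∃ w ∈ S, w.natAbs ≤ ⌊X⌋₊ := by
    intro S hS
    obtain ⟨h1, w, hw, hwX⟩ := hF S hS
    exact ⟨h1, w, hw, natAbs_le hwX⟩
  have h1 := split hk hk2 j hj1 hj3 ⌊X⌋₊ F hF' (Icc 1 (10 ^ 6 * k)) (fun S _ hpos w hw hwk => by
    rw [mem_Icc]
    have := hpos w hw
    omega)
  have h2 : ((Icc 1 (10 ^ 6 * k)).card : ℝ) = 10 ^ 6 * k := by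
    rw [Int.card_Icc]
    have : ((10 ^ 6 * k + 1 - 1).toNat : ℤ) = 10 ^ 6 * k := by
      rw [Int.toNat_of_nonneg (by omega)]
      ring
    exact_mod_cast this
  have h2j : (2 : ℤ) ^ j ≤ k := (pow_le_pow_left₀ (by norm_num) (by norm_num) j).trans hj3
  have h3 := bad_card hk (by omega) j h2j
  have h4 := bal_real hk hX
  rw [h2] at h1
  have hinv : 1 / (j : ℝ) ≤ 4 / Real.log k := by
    rw [div_le_div_iff₀ (by linarith) hlog]
    linarith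
  have h5 : (10 : ℝ) ^ 6 * k * (10 ^ 6 / j) ≤ 4 * 10 ^ 12 * (k / Real.log k) := by
    calc (10 : ℝ) ^ 6 * k * (10 ^ 6 / j) = 10 ^ 12 * k * (1 / j) := by ring
      _ ≤ 10 ^ 12 * k * (4 / Real.log k) := mul_le_mul_of_nonneg_left hinv (by positivity)
      _ = _ := by ring
  have h6 : (tau / 2) ^ j ≤ C1 * (4 / Real.log k) := by
    have h7 := hdec j
    have h8 : 0 ≤ (tau / 2) ^ j := by have := tau_pos; positivity
    have h9 : (j : ℝ) * (tau / 2) ^ j ≤ C1 := by nlinarith [mul_nonneg (by linarith : (0 : ℝ) ≤ j) h8]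
    calc (tau / 2) ^ j = (j : ℝ) * (tau / 2) ^ j * (1 / j) := by field_simp
      _ ≤ C1 * (1 / j) := mul_le_mul_of_nonneg_right h9 (by positivity)
      _ ≤ _ := mul_le_mul_of_nonneg_left hinv hC1.le
  have h10 : 2 * 10 ^ 6 * √(1 + 10 ^ 6) * k * (tau / 2) ^ j ≤ 4 * (2 * 10 ^ 6 * √(1 + 10 ^ 6) * C1) * (k / Real.log k) := by
    calc 2 * 10 ^ 6 * √(1 + 10 ^ 6) * k * (tau / 2) ^ j ≤ 2 * 10 ^ 6 * √(1 + 10 ^ 6) * k * (C1 * (4 / Real.log k)) :=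
          mul_le_mul_of_nonneg_left h6 (by positivity)
      _ = _ := by ring
  have h11 : 0 ≤ (k : ℝ) / Real.log k := by positivity
  have h12 : 0 ≤ X ^ (19 / 20 : ℝ) := by positivity
  have h13 : 0 ≤ 4 * (10 ^ 12 + 2 * 10 ^ 6 * √(1 + 10 ^ 6) * C1) := by positivity
  nlinarith [mul_nonneg h13 h12]

/-- `k^(779/800)` is small -/
theorem pow_small {k : ℝ} (hk : 1 < k) : k ^ (779 / 800 : ℝ) ≤ (800 / 14) ^ 2 * (k / (Real.log k) ^ (3 / 2 : ℝ)) := by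
  have hlog : 0 < Real.log k := Real.log_pos hk
  have h1 := Real.log_le_rpow_div (show 0 ≤ k by linarith) (show (0 : ℝ) < 14 / 800 by norm_num)
  have h2 : (Real.log k) ^ (3 / 2 : ℝ) ≤ (800 / 14) ^ 2 * k ^ (21 / 800 : ℝ) := by
    have h3 : (Real.log k) ^ (3 / 2 : ℝ) ≤ (k ^ (14 / 800 : ℝ) / (14 / 800)) ^ (3 / 2 : ℝ) :=
      Real.rpow_le_rpow hlog.le h1 (by norm_num)
    have h4 : (k ^ (14 / 800 : ℝ) / (14 / 800)) ^ (3 / 2 : ℝ) = k ^ (21 / 800 : ℝ) * (800 / 14) ^ (3 / 2 : ℝ) := by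
      rw [Real.div_rpow (by positivity) (by norm_num), ← Real.rpow_mul (by linarith), div_eq_mul_inv,
        ← Real.inv_rpow (by norm_num)]
      norm_num
    have h5 : (800 / 14 : ℝ) ^ (3 / 2 : ℝ) ≤ (800 / 14) ^ (2 : ℝ) :=
      Real.rpow_le_rpow_of_exponent_le (by norm_num) (by norm_num)
    rw [Real.rpow_two] at h5
    rw [h4] at h3
    have h6 : 0 ≤ k ^ (21 / 800 : ℝ) := by positivity
    nlinarith
  have h7 : k ^ (779 / 800 : ℝ) * k ^ (21 / 800 : ℝ) = k := by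
    rw [← Real.rpow_add (by linarith)]
    norm_num
  have h8 : 0 < (Real.log k) ^ (3 / 2 : ℝ) := by positivity
  rw [← mul_div_assoc, le_div_iff₀ h8]
  have h9 : 0 ≤ k ^ (779 / 800 : ℝ) := by positivity
  calc k ^ (779 / 800 : ℝ) * (Real.log k) ^ (3 / 2 : ℝ) ≤ k ^ (779 / 800 : ℝ) * ((800 / 14) ^ 2 * k ^ (21 / 800 : ℝ)) :=
        mul_le_mul_of_nonneg_left h2 h9
    _ = (800 / 14) ^ 2 * (k ^ (779 / 800 : ℝ) * k ^ (21 / 800 : ℝ)) := by ring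
    _ = _ := by rw [h7]

theorem log_pow_le {k : ℝ} (hk : 2 < k) : k / (Real.log k) ^ (3 / 2 : ℝ) ≤ 2 * (k / Real.log k) := by
  have hl : 1 / 2 ≤ Real.log k := by
    have h1 : Real.log 2 ≤ Real.log k := Real.log_le_log (by norm_num) hk.le
    have h2 := Real.log_two_gt_d9
    linarith
  have h0 : 0 < Real.log k := by linarith
  have e : (Real.log k) ^ (3 / 2 : ℝ) = Real.log k * √(Real.log k) := by
    rw [Real.sqrt_eq_rpow, show (3 / 2 : ℝ) = 1 + 1 / 2 by norm_num, Real.rpow_add h0, Real.rpow_one]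
  have h1 : 1 / 2 ≤ √(Real.log k) := by
    apply Real.le_sqrt_of_sq_le
    linarith
  rw [e, div_le_iff₀ (by positivity)]
  have h2 : 2 * (k / Real.log k) * (Real.log k * √(Real.log k)) = 2 * k * √(Real.log k) := by field_simp
  rw [h2]
  nlinarith

/-- from the period to the size of the smallest element -/
theorem reach : ∃ c C : ℝ, 0 < c ∧ 1 ≤ C ∧ ∀ k : ℤ, k % 2 = 1 → 2 ≤ k → ∀ (D : ℝ), 1 ≤ D → ∀ (L : ℕ) (S : Finset ℤ), IsPrimitiveCycle k L S →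
    (L : ℝ) ≤ D * (k : ℝ) ^ c → ∃ w ∈ S, |(w : ℝ)| ≤ C * D ^ C * (k : ℝ) ^ (41 / 40 : ℝ) := by
  obtain ⟨A, C, hA, hC, h⟩ := elt_bound
  refine ⟨1 / (40 * (A + 1)), max C (A + 1), by positivity, le_max_of_le_left hC, fun k hk hk2 D hD L S hS hL => ?_⟩
  obtain ⟨w, hw, hwb⟩ := h k hk hk2 L S hS
  refine ⟨w, hw, ?_⟩
  rw [Nat.cast_natAbs] at hwb
  push_cast at hwb
  refine hwb.trans ?_
  have hkr : (1 : ℝ) ≤ k := by exact_mod_cast (by omega : 1 ≤ k)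
  have h1 : (L : ℝ) ^ (A + 1) ≤ D ^ (A + 1) * (k : ℝ) ^ (1 / 40 : ℝ) := by
    have h2 : (L : ℝ) ^ (A + 1) ≤ (D * (k : ℝ) ^ (1 / (40 * (A + 1)))) ^ (A + 1) :=
      Real.rpow_le_rpow (Nat.cast_nonneg _) hL (by linarith)
    rw [Real.mul_rpow (by linarith) (by positivity), ← Real.rpow_mul (by linarith)] at h2
    have e : 1 / (40 * (A + 1)) * (A + 1) = 1 / 40 := by field_simp
    rwa [e] at h2
  have h3 : D ^ (A + 1) ≤ D ^ (max C (A + 1)) := Real.rpow_le_rpow_of_exponent_le hD (le_max_right _ _)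
  have h4 : (k : ℝ) * (k : ℝ) ^ (1 / 40 : ℝ) = (k : ℝ) ^ (41 / 40 : ℝ) := by
    rw [show (41 / 40 : ℝ) = 1 + 1 / 40 by norm_num, Real.rpow_add (by linarith), Real.rpow_one]
  calc C * k * (L : ℝ) ^ (A + 1) ≤ max C (A + 1) * k * (D ^ (max C (A + 1)) * (k : ℝ) ^ (1 / 40 : ℝ)) := by
        gcongr
        · exact le_max_left _ _
        · exact h1.trans (mul_le_mul_of_nonneg_right h3 (by positivity))
    _ = max C (A + 1) * D ^ (max C (A + 1)) * (k * (k : ℝ) ^ (1 / 40 : ℝ)) := by ring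
    _ = _ := by rw [h4]

theorem reach_pow {k X B : ℝ} (hk : 1 < k) (hB : 0 ≤ B) (hX0 : 0 ≤ X) (hX : X ≤ B * k ^ (41 / 40 : ℝ)) :
    X ^ (19 / 20 : ℝ) ≤ B ^ (19 / 20 : ℝ) * ((800 / 14) ^ 2 * (k / (Real.log k) ^ (3 / 2 : ℝ))) := by
  have h1 : X ^ (19 / 20 : ℝ) ≤ (B * k ^ (41 / 40 : ℝ)) ^ (19 / 20 : ℝ) := Real.rpow_le_rpow hX0 hX (by norm_num)
  rw [Real.mul_rpow hB (by positivity), ← Real.rpow_mul (by linarith)] at h1
  have e : (41 / 40 : ℝ) * (19 / 20) = 779 / 800 := by norm_num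
  rw [e] at h1
  exact h1.trans (mul_le_mul_of_nonneg_left (pow_small hk) (by positivity))

theorem two : ∃ c C : ℝ, 0 < c ∧ 0 < C ∧ ∀ k : ℤ, k % 2 = 1 → 2 ≤ k → ∀ F : Finset (Finset ℤ),
    (∀ S ∈ F, ∃ L : ℕ, (L : ℝ) ≤ (k : ℝ) ^ c ∧ IsPrimitiveCycle k L S) → (F.card : ℝ) ≤ C * (k / Real.log k) := by
  obtain ⟨c, C, hc, hC, hr⟩ := reach
  obtain ⟨C1, hC1, h1⟩ := one
  refine ⟨c, C1 * (1 + C ^ (19 / 20 : ℝ) * ((800 / 14) ^ 2 * 2)), hc, by positivity, fun k hk hk2 F hF => ?_⟩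
  have hk3 : (3 : ℝ) ≤ k := by exact_mod_cast (by omega : 3 ≤ k)
  have hkp : (1 : ℝ) ≤ (k : ℝ) ^ (41 / 40 : ℝ) := Real.one_le_rpow (by linarith) (by norm_num)
  have h2 := h1 k hk hk2 (C * (k : ℝ) ^ (41 / 40 : ℝ)) (by nlinarith) F (fun S hS => by
    obtain ⟨L, hL, hcy⟩ := hF S hS
    refine ⟨⟨L, hcy⟩, ?_⟩
    obtain ⟨w, hw, hwb⟩ := hr k hk hk2 1 le_rfl L S hcy (by rwa [one_mul])
    refine ⟨w, hw, ?_⟩
    rwa [Real.one_rpow, mul_one] at hwb)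
  have h3 := reach_pow (k := k) (X := C * (k : ℝ) ^ (41 / 40 : ℝ)) (B := C) (by linarith) (by linarith) (by positivity) le_rfl
  have h4 := log_pow_le (k := k) (by linarith)
  refine h2.trans ?_
  have hlog : 0 < Real.log k := Real.log_pos (by linarith)
  have h5 : (C * (k : ℝ) ^ (41 / 40 : ℝ)) ^ (19 / 20 : ℝ) ≤ C ^ (19 / 20 : ℝ) * ((800 / 14) ^ 2 * (2 * (k / Real.log k))) :=
    h3.trans (by gcongr)
  calc C1 * (k / Real.log k + (C * (k : ℝ) ^ (41 / 40 : ℝ)) ^ (19 / 20 : ℝ))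
      ≤ C1 * (k / Real.log k + C ^ (19 / 20 : ℝ) * ((800 / 14) ^ 2 * (2 * (k / Real.log k)))) := by gcongr
    _ = _ := by ring

end Pool.Agent.Lib.MP_9c4f7e_nt.CC
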