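import Mathlib

/-!
# MP_9c4f7e / CC / Par: parity words of the maps `T_k`
-/

set_option autoImplicit false

open Finset

namespace Pool.Agent.Lib.MP_9c4f7e_nt.CC

/-- The map `T_k`: `x ↦ (3x+k)/2` for odd `x` and `x ↦ x/2` for even `x`. -/
def T (k : ℤ) (x : ℤ) : ℤ := if x % 2 = 1 then (3 * x + k) / 2 else x / 2

/-- the number of odd integers among `x, T x, ..., T^(n-1) x` -/
def ones (k : ℤ) (n : ℕ) (x : ℤ) : ℕ := ∑ i ∈ range n, if (T k)^[i] x % 2 = 1 then 1 else 0

theorem ones_zero (k x : ℤ) : ones k 0 x = 0 := by simp [ones]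

theorem ones_succ' (k x : ℤ) (n : ℕ) : ones k (n + 1) x = ones k n x + if (T k)^[n] x % 2 = 1 then 1 else 0 := by
  unfold ones
  rw [sum_range_succ]

theorem ones_succ (k x : ℤ) (n : ℕ) : ones k (n + 1) x = (if x % 2 = 1 then 1 else 0) + ones k n (T k x) := by
  unfold ones
  rw [sum_range_succ', add_comm]
  rfl

theorem ones_le (k x : ℤ) (n : ℕ) : ones k n x ≤ n := by
  unfold ones
  refine (sum_le_sum fun i _ => ?_).trans (le_of_eq (by simp : ∑ i ∈ range n, 1 = n))
  split_ifs <;> omega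

theorem T_add {k : ℤ} (hk : k % 2 = 1) (x z : ℤ) :
    T k (x + 2 * z) = T k x + (if x % 2 = 1 then 3 * z else z) := by
  unfold T
  by_cases h : x % 2 = 1
  · have h1 : (x + 2 * z) % 2 = 1 := by omega
    simp only [h, h1, if_true]
    omega
  · have h1 : ¬ (x + 2 * z) % 2 = 1 := by omega
    simp only [h, h1, if_false]
    omega

theorem ones_add {k : ℤ} (hk : k % 2 = 1) (n : ℕ) : ∀ x z : ℤ, ones k n (x + 2 ^ n * z) = ones k n x := by
  induction n with
  | zero => intro x z; simp [ones_zero]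
  | succ n ih =>
    intro x z
    have e : x + 2 ^ (n + 1) * z = x + 2 * (2 ^ n * z) := by ring
    rw [e, ones_succ, ones_succ, T_add hk]
    have h1 : ((x + 2 * (2 ^ n * z)) % 2 = 1) ↔ x % 2 = 1 := by omega
    simp only [h1]
    congr 1
    split_ifs
    · have e2 : T k x + 3 * (2 ^ n * z) = T k x + 2 ^ n * (3 * z) := by ring
      rw [e2, ih]
    · exact ih _ _

/-- a sum over a complete residue system -/
theorem sum_shift {n : ℕ} (f : ℤ → ℝ) (hf : ∀ x z : ℤ, f (x + 2 ^ n * z) = f x) (u c : ℤ) (hu : u % 2 = 1) :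
    ∑ y ∈ range (2 ^ n), f (u * y + c) = ∑ y ∈ range (2 ^ n), f y := by
  have hpos : (0 : ℤ) < 2 ^ n := by positivity
  obtain ⟨φ, hφ⟩ : ∃ φ : ℕ → ℕ, ∀ y, φ y = ((u * y + c) % 2 ^ n).toNat := ⟨_, fun _ => rfl⟩
  have hφ1 : ∀ y : ℕ, ((φ y : ℕ) : ℤ) = (u * y + c) % 2 ^ n := by
    intro y
    rw [hφ, Int.toNat_of_nonneg (Int.emod_nonneg _ hpos.ne')]
  have hinj : Set.InjOn φ (range (2 ^ n) : Finset ℕ) := by
    intro a ha b hb hab
    rw [mem_coe, mem_range] at ha hb
    have h1 : ((φ a : ℕ) : ℤ) = φ b := by rw [hab]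
    rw [hφ1, hφ1] at h1
    have h2 : (2 ^ n : ℤ) ∣ (u * a + c) - (u * b + c) := by
      have h1' : (u * b + c) ≡ (u * a + c) [ZMOD 2 ^ n] := h1.symm
      exact h1'.dvd
    have h3 : (2 ^ n : ℤ) ∣ u * ((a : ℤ) - b) := by
      have e : u * ((a : ℤ) - b) = (u * a + c) - (u * b + c) := by ring
      rw [e]; exact h2
    have hcop : IsCoprime ((2 : ℤ) ^ n) u := by
      apply IsCoprime.pow_left
      rw [Int.isCoprime_iff_gcd_eq_one, Int.gcd_comm]
      have : Odd u := Int.odd_iff.2 hu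
      exact Int.isCoprime_iff_gcd_eq_one.1 (Int.isCoprime_two_right.2 this)
    have h4 := hcop.dvd_of_dvd_mul_left h3
    have h5 : |(a : ℤ) - b| < 2 ^ n := by
      have ha' : (a : ℤ) < 2 ^ n := by exact_mod_cast ha
      have hb' : (b : ℤ) < 2 ^ n := by exact_mod_cast hb
      rw [abs_lt]
      constructor <;> omega
    have h6 := Int.eq_zero_of_abs_lt_dvd h4 h5
    omega
  have himg : (range (2 ^ n)).image φ = range (2 ^ n) := by
    apply Finset.eq_of_subset_of_card_le
    · intro y hy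
      obtain ⟨a, _, rfl⟩ := mem_image.1 hy
      rw [mem_range]
      have h1 : ((φ a : ℕ) : ℤ) < 2 ^ n := by
        rw [hφ1]
        exact Int.emod_lt_of_pos _ hpos
      exact_mod_cast h1
    · rw [card_image_of_injOn hinj]
  calc ∑ y ∈ range (2 ^ n), f (u * y + c) = ∑ y ∈ range (2 ^ n), f (φ y) := by
        refine sum_congr rfl fun y _ => ?_
        rw [hφ1]
        have e : u * (y : ℤ) + c = (u * y + c) % 2 ^ n + 2 ^ n * ((u * y + c) / 2 ^ n) := (Int.emod_add_mul_ediv _ _).symm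
        conv_lhs => rw [e]
        rw [hf]
    _ = ∑ y ∈ (range (2 ^ n)).image φ, f y := by rw [sum_image hinj]
    _ = _ := by rw [himg]

theorem sum_two_mul (f : ℕ → ℝ) (n : ℕ) : ∑ x ∈ range (2 * n), f x = ∑ y ∈ range n, (f (2 * y) + f (2 * y + 1)) := by
  induction n with
  | zero => simp
  | succ n ih =>
    have e : 2 * (n + 1) = 2 * n + 1 + 1 := by ring
    rw [e, sum_range_succ, sum_range_succ, ih, sum_range_succ]
    ring

theorem sum_ones {k : ℤ} (hk : k % 2 = 1) (g : ℕ → ℝ) (n : ℕ) :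
    ∑ x ∈ range (2 ^ (n + 1)), g (ones k (n + 1) x) =
      ∑ y ∈ range (2 ^ n), g (ones k n y) + ∑ y ∈ range (2 ^ n), g (1 + ones k n y) := by
  have e : 2 ^ (n + 1) = 2 * 2 ^ n := by ring
  rw [e, sum_two_mul, sum_add_distrib]
  congr 1
  · refine sum_congr rfl fun y _ => ?_
    have h1 : ¬ (((2 * y : ℕ) : ℤ)) % 2 = 1 := by omega
    have h2 : T k ((2 * y : ℕ) : ℤ) = y := by
      unfold T
      rw [if_neg h1]
      omega
    rw [ones_succ, h2, if_neg h1, zero_add]
  · rw [← sum_shift (n := n) (fun x => g (1 + ones k n x)) (fun x z => by simp only [ones_add hk]) 3 ((3 + k) / 2) (by norm_num)]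
    refine sum_congr rfl fun y _ => ?_
    have h1 : (((2 * y + 1 : ℕ) : ℤ)) % 2 = 1 := by omega
    have h2 : T k ((2 * y + 1 : ℕ) : ℤ) = 3 * y + (3 + k) / 2 := by
      unfold T
      rw [if_pos h1]
      push_cast
      omega
    rw [ones_succ, h2, if_pos h1]

/-- the generating function of the parity words -/
theorem sum_pow {k : ℤ} (hk : k % 2 = 1) (r : ℝ) (n : ℕ) : ∑ x ∈ range (2 ^ n), r ^ ones k n x = (1 + r) ^ n := by
  induction n with
  | zero => simp [ones_zero]
  | succ n ih =>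
    rw [sum_ones hk (fun m => r ^ m), ih]
    have e : ∀ y : ℕ, r ^ (1 + ones k n y) = r * r ^ ones k n y := fun y => by rw [pow_add, pow_one]
    simp only [e]
    rw [← mul_sum, ih, pow_succ]
    ring

theorem sum_ind {k : ℤ} (hk : k % 2 = 1) (n : ℕ) : ∀ m : ℕ,
    ∑ x ∈ range (2 ^ n), (if ones k n x = m then (1 : ℝ) else 0) = n.choose m := by
  induction n with
  | zero =>
    intro m
    rcases m with _ | m
    · simp [ones_zero]
    · simp [ones_zero]
  | succ n ih =>
    intro m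
    rw [sum_ones hk (fun p => if p = m then (1 : ℝ) else 0), ih]
    rcases m with _ | m
    · have e : ∀ y : ℕ, (if 1 + ones k n y = 0 then (1 : ℝ) else 0) = 0 := fun y => if_neg (by omega)
      simp only [e]
      simp
    · have e : ∀ y : ℕ, (if 1 + ones k n y = m + 1 then (1 : ℝ) else 0) = if ones k n y = m then (1 : ℝ) else 0 := fun y => by
        by_cases h : ones k n y = m
        · rw [if_pos (by omega), if_pos h]
        · rw [if_neg (by omega), if_neg h]
      simp only [e]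
      rw [ih, Nat.choose_succ_succ]
      push_cast
      ring

/-- a finite set of integers in an interval of length `q 2^n` -/
theorem sum_interval {n : ℕ} (f : ℤ → ℝ) (hf : ∀ x z : ℤ, f (x + 2 ^ n * z) = f x) (h0 : ∀ x, 0 ≤ f x) (A : Finset ℤ) (a : ℤ) (q : ℕ)
    (hA : ∀ x ∈ A, a ≤ x ∧ x < a + q * 2 ^ n) : ∑ x ∈ A, f x ≤ q * ∑ y ∈ range (2 ^ n), f y := by
  have hpos : (0 : ℤ) < 2 ^ n := by positivity
  have hmap : ∀ x ∈ A, ((x - a) / 2 ^ n).toNat ∈ range q := by
    intro x hx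
    obtain ⟨h1, h2⟩ := hA x hx
    rw [mem_range]
    have h3 : (x - a) / 2 ^ n < q := by
      rw [Int.ediv_lt_iff_lt_mul hpos]
      linarith
    have h4 : 0 ≤ (x - a) / 2 ^ n := Int.ediv_nonneg (by linarith) hpos.le
    omega
  rw [← sum_fiberwise_of_maps_to hmap]
  have hle : ∀ t ∈ range q, ∑ x ∈ A with ((x - a) / 2 ^ n).toNat = t, f x ≤ ∑ y ∈ range (2 ^ n), f y := by
    intro t _
    rw [← sum_shift f hf 1 (a + t * 2 ^ n) (by norm_num)]
    have hinj : Set.InjOn (fun y : ℕ => 1 * (y : ℤ) + (a + t * 2 ^ n)) (range (2 ^ n) : Finset ℕ) := by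
      intro x _ y _ hxy
      simp only at hxy
      omega
    rw [← sum_image (f := f) hinj]
    refine sum_le_sum_of_subset_of_nonneg ?_ fun x _ _ => h0 x
    intro x hx
    rw [mem_filter] at hx
    obtain ⟨h1, h2⟩ := hA x hx.1
    rw [mem_image]
    have h3 : 0 ≤ (x - a) / 2 ^ n := Int.ediv_nonneg (by linarith) hpos.le
    have h4 : (x - a) / 2 ^ n = t := by omega
    have h5 := Int.emod_add_mul_ediv (x - a) (2 ^ n)
    have h6 := Int.emod_nonneg (x - a) hpos.ne'
    have h7 := Int.emod_lt_of_pos (x - a) hpos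
    refine ⟨((x - a) % 2 ^ n).toNat, ?_, ?_⟩
    · rw [mem_range]
      have h8 : (((x - a) % 2 ^ n).toNat : ℤ) < 2 ^ n := by
        rw [Int.toNat_of_nonneg h6]
        exact h7
      exact_mod_cast h8
    · rw [Int.toNat_of_nonneg h6]
      rw [h4] at h5
      linarith
  refine (sum_le_sum hle).trans (le_of_eq ?_)
  rw [sum_const, card_range, nsmul_eq_mul]

end Pool.Agent.Lib.MP_9c4f7e_nt.CC
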