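import Pool.Agent.Lib.MP_9c4f7e_nt.CC.Spl
import Pool.Agent.Lib.MP_e43fce_nt.Gaps.Irr4

/-!
# MP_9c4f7e / CC / Per: a cycle of period `L` has an element of size at most `k L^(A+1)`
-/

set_option autoImplicit false

open Finset

namespace Pool.Agent.Lib.MP_9c4f7e_nt.CC

/-- the lower bound for linear forms in two logarithms, in the form used here -/
theorem form : ∃ A c : ℝ, 0 < A ∧ 0 < c ∧ ∀ L p : ℕ, 1 ≤ L → p ≤ L →
    c * (L : ℝ) ^ (-A) ≤ |L * Real.log 2 - p * Real.log 3| := by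
  obtain ⟨A, c, hA, hc, h⟩ := Pool.Agent.Lib.MP_e43fce_nt.Gaps.linear_form
  refine ⟨A, c, hA, hc, fun L p hL hp => ?_⟩
  have hL1 : (1 : ℝ) ≤ L := by exact_mod_cast hL
  have hpL : (p : ℝ) ≤ L := by exact_mod_cast hp
  have h1 := h L (-p) L hL1 (by simp) (by simpa using hpL) (Or.inl (by omega))
  push_cast at h1
  have e : (L : ℝ) * Real.log 2 - p * Real.log 3 = L * Real.log 2 + -p * Real.log 3 := by ring
  rw [e]
  exact h1

theorem upper_neg {k : ℤ} (hk : k % 2 = 1) {w : ℤ} {θ : ℝ} (h0 : 0 ≤ θ) (h1 : θ ≤ 1) (n : ℕ)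
    (hi : ∀ i < n, (T k)^[i] w < 0 ∧ (k : ℝ) ≤ 3 * θ * -(((T k)^[i] w : ℤ) : ℝ)) :
    2 ^ n * (((T k)^[n] w : ℤ) : ℝ) ≤ 3 ^ ones k n w * (1 - θ) ^ n * w := by
  induction n with
  | zero => simp [ones_zero]
  | succ n ih =>
    have ih' := ih fun i hi' => hi i (by omega)
    obtain ⟨hy1, hy2⟩ := hi n (by omega)
    obtain ⟨y, hy⟩ : ∃ y, y = (T k)^[n] w := ⟨_, rfl⟩
    rw [Function.iterate_succ_apply', ones_succ', ← hy]
    rw [← hy] at ih' hy1 hy2
    have hyr : (y : ℝ) < 0 := by exact_mod_cast hy1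
    have h2 : (2 : ℝ) * ((T k y : ℤ) : ℝ) = if y % 2 = 1 then 3 * (y : ℝ) + k else y := by
      have h := two_T hk y
      split_ifs at h ⊢ with h1
      · exact_mod_cast h
      · exact_mod_cast h
    have hθ : 0 ≤ 1 - θ := by linarith
    have key : (2 : ℝ) * ((T k y : ℤ) : ℝ) ≤ 3 ^ (if y % 2 = 1 then 1 else 0) * (1 - θ) * y := by
      rw [h2]
      by_cases h3 : y % 2 = 1
      · simp only [h3, if_true, pow_one]
        nlinarith
      · simp only [h3, if_false, pow_zero, one_mul]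
        nlinarith
    calc (2 : ℝ) ^ (n + 1) * ((T k y : ℤ) : ℝ) = 2 ^ n * (2 * ((T k y : ℤ) : ℝ)) := by ring
      _ ≤ 2 ^ n * (3 ^ (if y % 2 = 1 then 1 else 0) * (1 - θ) * y) := mul_le_mul_of_nonneg_left key (by positivity)
      _ = (3 ^ (if y % 2 = 1 then 1 else 0) * (1 - θ)) * (2 ^ n * y) := by ring
      _ ≤ (3 ^ (if y % 2 = 1 then 1 else 0) * (1 - θ)) * (3 ^ ones k n w * (1 - θ) ^ n * w) :=
          mul_le_mul_of_nonneg_left ih' (by positivity)
      _ = _ := by rw [pow_add, pow_succ]; ring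

/-- a cycle of period `L` has a small element -/
theorem elt_bound : ∃ A C : ℝ, 0 < A ∧ 1 ≤ C ∧ ∀ k : ℤ, k % 2 = 1 → 2 ≤ k → ∀ (L : ℕ) (S : Finset ℤ), IsPrimitiveCycle k L S →
    ∃ w ∈ S, (w.natAbs : ℝ) ≤ C * k * (L : ℝ) ^ (A + 1) := by
  obtain ⟨A, c, hA, hc, hform⟩ := form
  refine ⟨A, max 2 (2 / c), hA, le_max_of_le_left (by norm_num), fun k hk hk2 L S h => ?_⟩
  obtain ⟨w0, hw0⟩ := cyc_nonempty h
  obtain ⟨w, hw, hmin⟩ := exists_min_image S Int.natAbs ⟨w0, hw0⟩
  have hE := elt hk h hw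
  have hne := hE.ne_zero hk2
  refine ⟨w, hw, ?_⟩
  have hL1 : 1 ≤ L := hE.pos
  have hLr : (1 : ℝ) ≤ L := by exact_mod_cast hL1
  have hkr : (0 : ℝ) < k := by exact_mod_cast (by omega : 0 < k)
  obtain ⟨p, hp⟩ : ∃ p, p = ones k L w := ⟨_, rfl⟩
  have hpL : p ≤ L := hp ▸ ones_le k w L
  have hf := hform L p hL1 hpL
  have hLA : (0 : ℝ) < (L : ℝ) ^ (-A) := Real.rpow_pos_of_pos (by linarith) _
  have hLA1 : (1 : ℝ) ≤ (L : ℝ) ^ (A + 1) := Real.one_le_rpow hLr (by linarith)
  -- it is enough to have `|form| ≤ 2 L k / |w|`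
  have fin : |L * Real.log 2 - p * Real.log 3| ≤ 2 * L * k / w.natAbs → (w.natAbs : ℝ) ≤ max 2 (2 / c) * k * (L : ℝ) ^ (A + 1) := by
    intro h1
    have hw1 : (0 : ℝ) < w.natAbs := by
      have : 0 < w.natAbs := Int.natAbs_pos.2 hne
      exact_mod_cast this
    have h2 := hf.trans h1
    rw [le_div_iff₀ hw1] at h2
    have e1 : (L : ℝ) ^ (A + 1) = (L : ℝ) / (L : ℝ) ^ (-A) := by
      rw [Real.rpow_neg (by linarith), div_inv_eq_mul, Real.rpow_add (by linarith), Real.rpow_one]
      ring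
    calc (w.natAbs : ℝ) = c * (L : ℝ) ^ (-A) * w.natAbs / (c * (L : ℝ) ^ (-A)) := by field_simp
      _ ≤ 2 * L * k / (c * (L : ℝ) ^ (-A)) := div_le_div_of_nonneg_right h2 (by positivity)
      _ = 2 / c * k * (L : ℝ) ^ (A + 1) := by rw [e1]; field_simp
      _ ≤ max 2 (2 / c) * k * (L : ℝ) ^ (A + 1) := by
          gcongr
          exact le_max_right _ _
  rcases cyc_sign hk hk2 h with hpos | hneg
  · apply fin
    have hw1 := hpos w hw
    have hwr : (0 : ℝ) < w := by exact_mod_cast hw1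
    have hwabs : (w.natAbs : ℝ) = w := by
      rw [Nat.cast_natAbs, abs_of_pos hw1]
    rw [hwabs]
    have hB : 0 < (w : ℝ) / (2 * k) := by positivity
    have hg := growth hk (by omega) hB hw1 L
    have hs : small k ((w : ℝ) / (2 * k)) L w = 0 := by
      unfold small
      apply sum_eq_zero
      intro i _
      rw [if_neg]
      rw [not_le]
      have h1 := hmin _ (hE.mem i)
      have h2 := hpos _ (hE.mem i)
      have h3 : w ≤ (T k)^[i] w := by omega
      have h4 : (w : ℝ) ≤ (((T k)^[i] w : ℤ) : ℝ) := by exact_mod_cast h3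
      have h5 : (w : ℝ) / (2 * k) * k = w / 2 := by field_simp
      rw [h5]
      linarith
    rw [hs, pow_zero, mul_one, hE.per, ← hp] at hg
    have h6 : (2 : ℝ) ^ L ≤ 3 ^ p * (1 + 1 / ((w : ℝ) / (2 * k))) ^ L := by
      have h7 : (0 : ℝ) < (k : ℝ) + w := by positivity
      rw [mul_assoc] at hg
      exact le_of_mul_le_mul_left hg h7
    have h8 : 1 / ((w : ℝ) / (2 * k)) = 2 * k / w := by field_simp
    rw [h8] at h6
    have h9 := Real.log_le_log (by positivity) h6
    rw [Real.log_mul (by positivity) (by positivity), Real.log_pow, Real.log_pow, Real.log_pow] at h9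
    have h10 : Real.log (1 + 2 * k / w) ≤ 2 * k / w := by
      have := Real.log_le_sub_one_of_pos (show (0 : ℝ) < 1 + 2 * k / w by positivity)
      linarith
    have hl := lower hk (by omega) w L
    rw [hE.per, ← hp] at hl
    have h11 : (3 : ℤ) ^ p ≤ 2 ^ L := le_of_mul_le_mul_right hl hw1
    have h12 : (3 : ℝ) ^ p ≤ 2 ^ L := by exact_mod_cast h11
    have h13 := Real.log_le_log (by positivity) h12
    rw [Real.log_pow, Real.log_pow] at h13
    rw [abs_of_nonneg (by linarith)]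
    have h14 : (L : ℝ) * Real.log (1 + 2 * k / w) ≤ L * (2 * k / w) := mul_le_mul_of_nonneg_left h10 (by linarith)
    have h15 : (L : ℝ) * (2 * k / w) = 2 * L * k / w := by ring
    linarith
  · have hw1 := hneg w hw
    have hwabs : (w.natAbs : ℝ) = -w := by
      rw [Nat.cast_natAbs, abs_of_neg hw1]
      push_cast
      rfl
    have hwr : (w : ℝ) < 0 := by exact_mod_cast hw1
    rcases le_or_gt (-(w : ℝ)) (2 * k) with hsm | hbig
    · rw [hwabs]
      calc -(w : ℝ) ≤ 2 * k := hsm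
        _ = 2 * k * 1 := (mul_one _).symm
        _ ≤ max 2 (2 / c) * k * (L : ℝ) ^ (A + 1) := by
            gcongr
            exact le_max_left _ _
    · apply fin
      rw [hwabs]
      obtain ⟨y, hy⟩ : ∃ y : ℝ, y = -(w : ℝ) := ⟨_, rfl⟩
      rw [← hy] at hbig ⊢
      have hy0 : 0 < y := by linarith
      obtain ⟨θ, hθ⟩ : ∃ θ : ℝ, θ = k / (3 * y) := ⟨_, rfl⟩
      have hθ0 : 0 < θ := by rw [hθ]; positivity
      have hθ1 : θ ≤ 1 / 6 := by
        rw [hθ, div_le_iff₀ (by positivity)]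
        linarith
      have hu := upper_neg hk hθ0.le (by linarith) (w := w) L (fun i _ => by
        have h1 := hmin _ (hE.mem i)
        have h2 := hneg _ (hE.mem i)
        refine ⟨h2, ?_⟩
        have h3 : (T k)^[i] w ≤ w := by omega
        have h4 : (((T k)^[i] w : ℤ) : ℝ) ≤ w := by exact_mod_cast h3
        have h5 : 3 * θ * y = k := by rw [hθ]; field_simp
        rw [← h5]
        have h6 : y ≤ -(((T k)^[i] w : ℤ) : ℝ) := by rw [hy]; linarith
        exact mul_le_mul_of_nonneg_left h6 (by positivity))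
      rw [hE.per, ← hp] at hu
      have h6 : 3 ^ p * (1 - θ) ^ L ≤ (2 : ℝ) ^ L := by
        by_contra hcon
        rw [not_le] at hcon
        have := mul_lt_mul_of_neg_right hcon hwr
        linarith
      have h1θ : 0 < 1 - θ := by linarith
      have h9 := Real.log_le_log (by positivity) h6
      rw [Real.log_mul (by positivity) (by positivity), Real.log_pow, Real.log_pow, Real.log_pow] at h9
      have h10 : -(2 * θ) ≤ Real.log (1 - θ) := by
        have h1 := Real.one_sub_inv_le_log_of_pos h1θ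
        have h2 : -(2 * θ) ≤ 1 - (1 - θ)⁻¹ := by
          have h3 : (1 - θ)⁻¹ ≤ 1 + 2 * θ := by
            rw [inv_le_comm₀ h1θ (by positivity)]
            rw [inv_le_iff_one_le_mul₀ (by positivity)]
            nlinarith
          linarith
        linarith
      have hl := lower hk (by omega) w L
      rw [hE.per, ← hp] at hl
      have h11 : (2 : ℤ) ^ L ≤ 3 ^ p := by
        by_contra hcon
        rw [not_le] at hcon
        have := mul_lt_mul_of_neg_right hcon hw1
        linarith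
      have h12 : (2 : ℝ) ^ L ≤ 3 ^ p := by exact_mod_cast h11
      have h13 := Real.log_le_log (by positivity) h12
      rw [Real.log_pow, Real.log_pow] at h13
      rw [abs_of_nonpos (by linarith)]
      have h14 : (L : ℝ) * -(2 * θ) ≤ L * Real.log (1 - θ) := mul_le_mul_of_nonneg_left h10 (by linarith)
      have h15 : (L : ℝ) * (2 * θ) ≤ 2 * L * k / y := by
        rw [hθ]
        have e1 : (L : ℝ) * (2 * (k / (3 * y))) = 2 * L * k / y * (1 / 3) := by field_simp
        rw [e1]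
        have : 0 ≤ 2 * (L : ℝ) * k / y := by positivity
        linarith
      linarith

end Pool.Agent.Lib.MP_9c4f7e_nt.CC
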