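import Pool.Agent.Lib.MP_9c4f7e_nt.CC.Cyc

/-!
# MP_9c4f7e / CC / Spl: the three kinds of cycles
-/

set_option autoImplicit false

open Finset

namespace Pool.Agent.Lib.MP_9c4f7e_nt.CC

theorem two_pow_le {s n : ℕ} (h : 10 ^ 6 * s ≤ n) : (2 : ℝ) ^ s ≤ (1 + 1 / 10 ^ 6) ^ n := by
  obtain ⟨M, hM⟩ : ∃ M : ℕ, M = 10 ^ 6 := ⟨_, rfl⟩
  have h1 : (2 : ℝ) ≤ (1 + 1 / 10 ^ 6) ^ M := by
    have h2 := one_add_mul_le_pow (show (-2 : ℝ) ≤ 1 / 10 ^ 6 by norm_num) M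
    have h3 : (M : ℝ) = 10 ^ 6 := by rw [hM]; norm_num
    rw [h3] at h2
    have h4 : (1 : ℝ) + 10 ^ 6 * (1 / 10 ^ 6) = 2 := by norm_num
    rwa [h4] at h2
  rw [← hM] at h
  calc (2 : ℝ) ^ s ≤ ((1 + 1 / 10 ^ 6) ^ M) ^ s := pow_le_pow_left₀ (by norm_num) h1 s
    _ = (1 + 1 / 10 ^ 6) ^ (M * s) := (pow_mul _ _ _).symm
    _ ≤ (1 + 1 / 10 ^ 6) ^ n := pow_le_pow_right₀ (by norm_num) h

/-- the elements of `[1, 10^6 k]` with few small iterates -/
noncomputable def bad (k : ℤ) (j : ℕ) : Finset ℤ := (Icc 1 (10 ^ 6 * k)).filter fun x => 10 ^ 6 * small k (10 ^ 6) j x ≤ j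

theorem bad_card {k : ℤ} (hk : k % 2 = 1) (hk0 : 0 < k) (j : ℕ) (hj : 2 ^ j ≤ k) :
    ((bad k j).card : ℝ) ≤ 2 * 10 ^ 6 * √(1 + 10 ^ 6) * k * (tau / 2) ^ j := by
  have hkr : (0 : ℝ) < k := by exact_mod_cast hk0
  have h2j : (0 : ℤ) < 2 ^ j := by positivity
  obtain ⟨q, hq⟩ : ∃ q : ℕ, q = (10 ^ 6 * k / 2 ^ j).toNat + 1 := ⟨_, rfl⟩
  have hq1 : (q : ℤ) = 10 ^ 6 * k / 2 ^ j + 1 := by
    rw [hq]
    push_cast
    rw [Int.toNat_of_nonneg (Int.ediv_nonneg (by positivity) h2j.le)]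
  have h1 := card_le hk j q (bad k j) 1 (1 + 10 ^ 6) (by norm_num) (fun x hx => by
    rw [bad, mem_filter, mem_Icc] at hx
    refine ⟨hx.1.1, ?_⟩
    have h3 := Int.lt_ediv_add_one_mul_self (10 ^ 6 * k) h2j
    rw [hq1]
    linarith [hx.1.2]) (fun x hx => by
    rw [bad, mem_filter, mem_Icc] at hx
    obtain ⟨⟨hx1, hx2⟩, hx3⟩ := hx
    have hx0 : 0 < x := by omega
    have hg := growth hk hk0 (B := 10 ^ 6) (by norm_num) hx0 j
    have h4 := two_pow_le hx3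
    have h5 : (0 : ℝ) < (((T k)^[j] x : ℤ) : ℝ) := by exact_mod_cast iter_pos hk0 hx0 j
    have h6 : (x : ℝ) ≤ 10 ^ 6 * k := by exact_mod_cast hx2
    have hx0r : (0 : ℝ) < x := by exact_mod_cast hx0
    obtain ⟨e, he⟩ : ∃ e : ℝ, e = (1 + 1 / 10 ^ 6) ^ j := ⟨_, rfl⟩
    obtain ⟨P, hP⟩ : ∃ P : ℝ, P = 3 ^ ones k j x := ⟨_, rfl⟩
    obtain ⟨s, hs⟩ : ∃ s : ℝ, s = 2 ^ small k (10 ^ 6) j x := ⟨_, rfl⟩
    have he0 : 0 < e := by rw [he]; positivity
    have hP0 : 0 < P := by rw [hP]; positivity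
    have hs0 : 0 < s := by rw [hs]; positivity
    rw [← he, ← hP, ← hs] at hg
    rw [← he, ← hs] at h4
    rw [← he, ← hP]
    have h7 : (k : ℝ) * 2 ^ j ≤ k * ((1 + 10 ^ 6) * e ^ 2 * P) := by
      calc (k : ℝ) * 2 ^ j ≤ ((k : ℝ) + (((T k)^[j] x : ℤ) : ℝ)) * 2 ^ j :=
            mul_le_mul_of_nonneg_right (by linarith) (by positivity)
        _ ≤ ((k : ℝ) + x) * P * e * s := hg
        _ ≤ ((1 + 10 ^ 6) * k) * P * e * e := by
            gcongr
            linarith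
        _ = _ := by ring
    exact le_of_mul_le_mul_left h7 hkr)
  have h2 : (q : ℝ) ≤ 2 * 10 ^ 6 * k / 2 ^ j := by
    have h3 : (q : ℝ) = ((10 ^ 6 * k / 2 ^ j : ℤ) : ℝ) + 1 := by exact_mod_cast hq1
    have h4 : (((10 ^ 6 * k / 2 ^ j : ℤ) : ℝ)) * 2 ^ j ≤ 10 ^ 6 * k := by
      have := Int.ediv_mul_le (10 ^ 6 * k) h2j.ne'
      exact_mod_cast this
    have h5 : (2 : ℝ) ^ j ≤ k := by exact_mod_cast hj
    rw [h3, le_div_iff₀ (by positivity), add_mul, one_mul]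
    nlinarith
  refine h1.trans ?_
  calc (q : ℝ) * √(1 + 10 ^ 6) * tau ^ j ≤ (2 * 10 ^ 6 * k / 2 ^ j) * √(1 + 10 ^ 6) * tau ^ j := by
        have := tau_pos
        gcongr
    _ = _ := by rw [div_pow]; ring

theorem small_eq (k : ℤ) (B : ℝ) (n : ℕ) (x : ℤ) :
    small k B n x = ((range n).filter fun i => (((T k)^[i] x : ℤ) : ℝ) ≤ B * k).card := by
  rw [card_filter]
  rfl

theorem good_card {k : ℤ} (hk : k % 2 = 1) (j : ℕ) (hj : 3 ^ j ≤ k) {F : Finset (Finset ℤ)}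
    (hF : ∀ S ∈ F, ∃ L, IsPrimitiveCycle k L S) (A : Finset ℤ) (hA : ∀ S ∈ F, ∀ w ∈ S, w ≤ 10 ^ 6 * k → w ∈ A)
    (hgood : ∀ S ∈ F, ∃ w ∈ S, j < 10 ^ 6 * small k (10 ^ 6) j w) : (F.card : ℝ) * (j / 10 ^ 6) ≤ A.card := by
  refine card_fam (fun S hS S' hS' w hw hw' => ?_) A _ fun S hS => ?_
  · obtain ⟨L, h⟩ := hF S hS
    obtain ⟨L', h'⟩ := hF S' hS'
    exact cyc_eq hk h h' hw hw'
  · obtain ⟨L, h⟩ := hF S hS
    obtain ⟨w, hw, hsm⟩ := hgood S hS
    have hE := elt hk h hw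
    have hjL : j < L := by
      have h1 := hE.len hk
      have h2 : (3 : ℤ) ^ j < 3 ^ L := hj.trans_lt h1
      exact (pow_lt_pow_iff_right₀ (by norm_num : (1 : ℤ) < 3)).1 h2
    have h3 : small k (10 ^ 6) j w ≤ (S ∩ A).card := by
      rw [small_eq]
      apply card_le_card_of_injOn (fun i => (T k)^[i] w)
      · intro i hi
        rw [mem_coe, mem_filter, mem_range] at hi
        rw [mem_coe, mem_inter]
        refine ⟨hE.mem i, hA S hS _ (hE.mem i) ?_⟩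
        exact_mod_cast hi.2
      · intro a ha b hb hab
        rw [mem_coe, mem_filter, mem_range] at ha hb
        exact hE.inj a (by omega) b (by omega) hab
    have h4 : (j : ℝ) < 10 ^ 6 * ((S ∩ A).card : ℝ) := by
      have : j < 10 ^ 6 * (S ∩ A).card := hsm.trans_le (Nat.mul_le_mul_left _ h3)
      exact_mod_cast this
    rw [div_le_iff₀ (by norm_num)]
    linarith

open Classical in
/-- the integers with `1 ≤ |w| ≤ X` whose parity word has many ones -/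
noncomputable def bal (k : ℤ) (X : ℕ) : Finset ℤ :=
  (Icc (-(X : ℤ)) X).filter fun w => w ≠ 0 ∧
    (2 : ℝ) ^ Nat.log 2 w.natAbs ≤ ((1 + 1 / 10 ^ 6) ^ Nat.log 2 w.natAbs) ^ 2 * 3 ^ ones k (Nat.log 2 w.natAbs) w

theorem tau_ge : 3 / 2 ≤ tau := by
  have h : (3 / 2 : ℝ) ^ 20 ≤ tau ^ 20 := by rw [tau_pow]; norm_num
  exact le_of_pow_le_pow_left₀ (by norm_num) tau_pos.le h

theorem tau_sum (n : ℕ) : ∑ J ∈ range (n + 1), tau ^ J ≤ 3 * tau ^ n := by
  induction n with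
  | zero => simp
  | succ n ih =>
    rw [sum_range_succ]
    have h1 := tau_ge
    have h2 : 0 < tau ^ n := by have := tau_pos; positivity
    calc ∑ J ∈ range (n + 1), tau ^ J + tau ^ (n + 1) ≤ 3 * tau ^ n + tau ^ (n + 1) := by linarith
      _ ≤ 3 * tau ^ (n + 1) := by rw [pow_succ]; nlinarith

theorem bal_card {k : ℤ} (hk : k % 2 = 1) (X : ℕ) : ((bal k X).card : ℝ) ≤ 6 * tau ^ Nat.log 2 X := by
  classical
  have hsub : bal k X ⊆ (range (Nat.log 2 X + 1)).biUnion fun J =>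
      ((bal k X).filter fun w => 0 < w ∧ Nat.log 2 w.natAbs = J) ∪ ((bal k X).filter fun w => w < 0 ∧ Nat.log 2 w.natAbs = J) := by
    intro w hw
    have hw' := hw
    rw [bal, mem_filter, mem_Icc] at hw'
    rw [mem_biUnion]
    refine ⟨Nat.log 2 w.natAbs, ?_, ?_⟩
    · rw [mem_range, Nat.lt_succ_iff]
      apply Nat.log_mono_right
      omega
    · rw [mem_union, mem_filter, mem_filter]
      rcases lt_or_gt_of_ne hw'.2.1 with h | h
      · exact Or.inr ⟨hw, h, rfl⟩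
      · exact Or.inl ⟨hw, h, rfl⟩
  have hlog : ∀ w : ℤ, w ≠ 0 → (2 : ℤ) ^ Nat.log 2 w.natAbs ≤ w.natAbs ∧ (w.natAbs : ℤ) < 2 ^ (Nat.log 2 w.natAbs + 1) := by
    intro w hw
    refine ⟨?_, ?_⟩
    · exact_mod_cast Nat.pow_log_le_self 2 (by omega)
    · exact_mod_cast Nat.lt_pow_succ_log_self (by norm_num) w.natAbs
  have h1 : ∀ J, (((bal k X).filter fun w => 0 < w ∧ Nat.log 2 w.natAbs = J).card : ℝ) ≤ tau ^ J := by
    intro J
    have h2 := card_le hk J 1 ((bal k X).filter fun w => 0 < w ∧ Nat.log 2 w.natAbs = J) (2 ^ J) 1 zero_le_one (fun x hx => by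
      rw [mem_filter] at hx
      obtain ⟨h3, h4⟩ := hlog x (by omega)
      rw [hx.2.2] at h3 h4
      rw [pow_succ] at h4
      push_cast
      constructor
      · omega
      · omega) (fun x hx => by
      rw [mem_filter, bal, mem_filter] at hx
      have h3 := hx.1.2.2
      rw [hx.2.2] at h3
      rw [one_mul]
      exact h3)
    simpa using h2
  have h1' : ∀ J, (((bal k X).filter fun w => w < 0 ∧ Nat.log 2 w.natAbs = J).card : ℝ) ≤ tau ^ J := by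
    intro J
    have h2 := card_le hk J 1 ((bal k X).filter fun w => w < 0 ∧ Nat.log 2 w.natAbs = J) (-2 ^ (J + 1) + 1) 1 zero_le_one (fun x hx => by
      rw [mem_filter] at hx
      obtain ⟨h3, h4⟩ := hlog x (by omega)
      rw [hx.2.2] at h3 h4
      rw [pow_succ] at h4 ⊢
      push_cast
      constructor
      · omega
      · omega) (fun x hx => by
      rw [mem_filter, bal, mem_filter] at hx
      have h3 := hx.1.2.2
      rw [hx.2.2] at h3
      rw [one_mul]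
      exact h3)
    simpa using h2
  calc ((bal k X).card : ℝ) ≤ (((range (Nat.log 2 X + 1)).biUnion fun J =>
      ((bal k X).filter fun w => 0 < w ∧ Nat.log 2 w.natAbs = J) ∪ ((bal k X).filter fun w => w < 0 ∧ Nat.log 2 w.natAbs = J)).card : ℝ) := by
        exact_mod_cast card_le_card hsub
    _ ≤ ∑ J ∈ range (Nat.log 2 X + 1), ((((bal k X).filter fun w => 0 < w ∧ Nat.log 2 w.natAbs = J) ∪
          ((bal k X).filter fun w => w < 0 ∧ Nat.log 2 w.natAbs = J)).card : ℝ) := by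
        exact_mod_cast card_biUnion_le
    _ ≤ ∑ J ∈ range (Nat.log 2 X + 1), 2 * tau ^ J := by
        refine sum_le_sum fun J _ => ?_
        have h3 := card_union_le ((bal k X).filter fun w => 0 < w ∧ Nat.log 2 w.natAbs = J)
          ((bal k X).filter fun w => w < 0 ∧ Nat.log 2 w.natAbs = J)
        have h4 : ((((bal k X).filter fun w => 0 < w ∧ Nat.log 2 w.natAbs = J) ∪
          ((bal k X).filter fun w => w < 0 ∧ Nat.log 2 w.natAbs = J)).card : ℝ) ≤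
            (((bal k X).filter fun w => 0 < w ∧ Nat.log 2 w.natAbs = J).card : ℝ) +
            (((bal k X).filter fun w => w < 0 ∧ Nat.log 2 w.natAbs = J).card : ℝ) := by exact_mod_cast h3
        linarith [h1 J, h1' J]
    _ ≤ 6 * tau ^ Nat.log 2 X := by
        rw [← mul_sum]
        linarith [tau_sum (Nat.log 2 X)]

theorem far_mem {k : ℤ} (hk : k % 2 = 1) (hk2 : 2 ≤ k) {L : ℕ} {S : Finset ℤ} (h : IsPrimitiveCycle k L S) (X : ℕ)
    (hX : ∃ w ∈ S, w.natAbs ≤ X) (hfar : (∀ w ∈ S, 0 < w ∧ 10 ^ 6 * k < w) ∨ ∀ w ∈ S, w < 0) : ∃ w ∈ S, w ∈ bal k X := by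
  obtain ⟨w0, hw0, hw0X⟩ := hX
  obtain ⟨w, hw, hmin⟩ := exists_min_image S Int.natAbs ⟨w0, hw0⟩
  have hE := elt hk h hw
  have hwX : w.natAbs ≤ X := (hmin w0 hw0).trans hw0X
  have hne := hE.ne_zero hk2
  refine ⟨w, hw, ?_⟩
  rw [bal, mem_filter, mem_Icc]
  refine ⟨⟨by omega, by omega⟩, hne, ?_⟩
  obtain ⟨J, hJ⟩ : ∃ J, J = Nat.log 2 w.natAbs := ⟨_, rfl⟩
  rw [← hJ]
  have hm := hmin _ (hE.mem J)
  have hmJ := hE.mem J
  have he1 : (1 : ℝ) ≤ (1 + 1 / 10 ^ 6) ^ J := one_le_pow₀ (by norm_num)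
  rcases hfar with hpos | hneg
  · have hw1 := hpos w hw
    have hT := hpos _ hmJ
    have hTw : w ≤ (T k)^[J] w := by omega
    have hg := growth hk (by omega) (B := 10 ^ 6) (by norm_num) hw1.1 J
    have hs : small k (10 ^ 6) J w = 0 := by
      unfold small
      apply sum_eq_zero
      intro i _
      rw [if_neg]
      rw [not_le]
      have := (hpos _ (hE.mem i)).2
      exact_mod_cast this
    rw [hs, pow_zero, mul_one] at hg
    have hkw : (0 : ℝ) < (k : ℝ) + w := by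
      have h1 : (0 : ℝ) < k := by exact_mod_cast (by omega : 0 < k)
      have h2 : (0 : ℝ) < w := by exact_mod_cast hw1.1
      linarith
    have h3 : ((k : ℝ) + w) * 2 ^ J ≤ ((k : ℝ) + w) * ((1 + 1 / 10 ^ 6) ^ J * 3 ^ ones k J w) := by
      calc ((k : ℝ) + w) * 2 ^ J ≤ ((k : ℝ) + (((T k)^[J] w : ℤ) : ℝ)) * 2 ^ J := by
            have : (w : ℝ) ≤ (((T k)^[J] w : ℤ) : ℝ) := by exact_mod_cast hTw
            exact mul_le_mul_of_nonneg_right (by linarith) (by positivity)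
        _ ≤ _ := hg
        _ = _ := by ring
    have h4 := le_of_mul_le_mul_left h3 hkw
    refine h4.trans ?_
    apply mul_le_mul_of_nonneg_right _ (by positivity)
    rw [pow_two]
    exact le_mul_of_one_le_left (by positivity) he1
  · have hw1 := hneg w hw
    have hT := hneg _ hmJ
    have hTw : (T k)^[J] w ≤ w := by omega
    have hl := lower hk (by omega) w J
    have h5 : (3 : ℤ) ^ ones k J w * w ≤ 2 ^ J * w := hl.trans (mul_le_mul_of_nonneg_left hTw (by positivity))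
    have h6 : (2 : ℤ) ^ J ≤ 3 ^ ones k J w := by
      by_contra hc
      rw [not_le] at hc
      have := mul_lt_mul_of_neg_right hc hw1
      linarith
    have h7 : (2 : ℝ) ^ J ≤ 3 ^ ones k J w := by exact_mod_cast h6
    refine h7.trans (le_mul_of_one_le_left (by positivity) ?_)
    exact one_le_pow₀ he1

theorem split {k : ℤ} (hk : k % 2 = 1) (hk2 : 2 ≤ k) (j : ℕ) (hj1 : 1 ≤ j) (hj : 3 ^ j ≤ k) (X : ℕ) (F : Finset (Finset ℤ))
    (hF : ∀ S ∈ F, (∃ L, IsPrimitiveCycle k L S) ∧ ∃ w ∈ S, w.natAbs ≤ X) (A : Finset ℤ)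
    (hA : ∀ S ∈ F, (∀ w ∈ S, 0 < w) → ∀ w ∈ S, w ≤ 10 ^ 6 * k → w ∈ A) :
    (F.card : ℝ) ≤ A.card * (10 ^ 6 / j) + (bad k j).card + (bal k X).card := by
  classical
  obtain ⟨F2, hF2⟩ : ∃ F2, F2 = F.filter fun S => ∃ w ∈ S, w ∈ bad k j := ⟨_, rfl⟩
  obtain ⟨F3, hF3⟩ : ∃ F3, F3 = F.filter fun S => ∃ w ∈ S, w ∈ bal k X := ⟨_, rfl⟩
  obtain ⟨F1, hF1⟩ : ∃ F1, F1 = F.filter fun S => (¬ ∃ w ∈ S, w ∈ bad k j) ∧ ¬ ∃ w ∈ S, w ∈ bal k X := ⟨_, rfl⟩
  have hdisj : ∀ S ∈ F, ∀ S' ∈ F, ∀ w, w ∈ S → w ∈ S' → S = S' := by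
    intro S hS S' hS' w hw hw'
    obtain ⟨L, h⟩ := (hF S hS).1
    obtain ⟨L', h'⟩ := (hF S' hS').1
    exact cyc_eq hk h h' hw hw'
  have hcov : F ⊆ F1 ∪ (F2 ∪ F3) := by
    intro S hS
    rw [mem_union, mem_union, hF1, hF2, hF3, mem_filter, mem_filter, mem_filter]
    by_cases h1 : ∃ w ∈ S, w ∈ bad k j
    · exact Or.inr (Or.inl ⟨hS, h1⟩)
    · by_cases h2 : ∃ w ∈ S, w ∈ bal k X
      · exact Or.inr (Or.inr ⟨hS, h2⟩)
      · exact Or.inl ⟨hS, h1, h2⟩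
  have hc : (F.card : ℝ) ≤ F1.card + (F2.card + F3.card) := by
    have h1 := (card_le_card hcov).trans ((card_union_le _ _).trans (Nat.add_le_add_left (card_union_le _ _) _))
    exact_mod_cast h1
  have h2 : (F2.card : ℝ) ≤ (bad k j).card := by
    refine card_meet (fun S hS S' hS' => hdisj S ?_ S' ?_) _ fun S hS => ?_
    · rw [hF2, mem_filter] at hS; exact hS.1
    · rw [hF2, mem_filter] at hS'; exact hS'.1
    · rw [hF2, mem_filter] at hS; exact hS.2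
  have h3 : (F3.card : ℝ) ≤ (bal k X).card := by
    refine card_meet (fun S hS S' hS' => hdisj S ?_ S' ?_) _ fun S hS => ?_
    · rw [hF3, mem_filter] at hS; exact hS.1
    · rw [hF3, mem_filter] at hS'; exact hS'.1
    · rw [hF3, mem_filter] at hS; exact hS.2
  have hpos : ∀ S ∈ F1, (∀ w ∈ S, 0 < w) ∧ ∃ w ∈ S, w ≤ 10 ^ 6 * k := by
    intro S hS
    rw [hF1, mem_filter] at hS
    obtain ⟨⟨L, h⟩, hX⟩ := hF S hS.1
    rcases cyc_sign hk hk2 h with hp | hn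
    · refine ⟨hp, ?_⟩
      by_contra hcon
      push Not at hcon
      exact hS.2.2 (far_mem hk hk2 h X hX (Or.inl fun w hw => ⟨hp w hw, hcon w hw⟩))
    · exact absurd (far_mem hk hk2 h X hX (Or.inr hn)) hS.2.2
  have h1 : (F1.card : ℝ) * (j / 10 ^ 6) ≤ A.card := by
    refine good_card hk j hj (fun S hS => ?_) A (fun S hS w hw hwk => ?_) fun S hS => ?_
    · rw [hF1, mem_filter] at hS
      exact (hF S hS.1).1
    · have hp := (hpos S hS).1
      rw [hF1, mem_filter] at hS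
      exact hA S hS.1 hp w hw hwk
    · obtain ⟨hp, w, hw, hwk⟩ := hpos S hS
      rw [hF1, mem_filter] at hS
      refine ⟨w, hw, ?_⟩
      by_contra hcon
      rw [not_lt] at hcon
      apply hS.2.1
      refine ⟨w, hw, ?_⟩
      rw [bad, mem_filter, mem_Icc]
      have := hp w hw
      exact ⟨⟨by omega, hwk⟩, hcon⟩
  have hj0 : (0 : ℝ) < j := by exact_mod_cast hj1
  have h4 : (F1.card : ℝ) ≤ A.card * (10 ^ 6 / j) := by
    calc (F1.card : ℝ) = F1.card * (j / 10 ^ 6) * (10 ^ 6 / j) := by field_simp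
      _ ≤ A.card * (10 ^ 6 / j) := mul_le_mul_of_nonneg_right h1 (by positivity)
  linarith

end Pool.Agent.Lib.MP_9c4f7e_nt.CC
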